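import Pool.Agent.Y722.HS.Sec2

/-!
# The average of the majorant
-/

set_option autoImplicit false

namespace Pool.Agent.Y722.HS

open Finset

open Classical in
/-- The indicator of bad reduction. -/
noncomputable def bd (p : ℕ) {n d : ℕ} (c : Mon n d → ZMod p) : ℝ := if IsBad p c then 1 else 0

theorem bd_nonneg (p : ℕ) {n d : ℕ} (c : Mon n d → ZMod p) : 0 ≤ bd p c := by
  unfold bd; split_ifs <;> norm_num

theorem bd_le (p : ℕ) {n d : ℕ} (c : Mon n d → ZMod p) : bd p c ≤ 1 := by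
  unfold bd; split_ifs <;> norm_num

/-- The constant of the bound for the proportion of bad forms. -/
noncomputable def DD (n d : ℕ) : ℝ := (Delta n d).totalDegree + d

theorem EM_bd (n d p : ℕ) [Fact p.Prime] (hd : 1 ≤ d) :
    EM p (fun c : Mon n d → ZMod p => bd p c) ≤ DD n d / p := by
  classical
  have hp0 := p_pos (p := p)
  have hM : (0 : ℝ) < (p : ℝ) ^ Fintype.card (Mon n d) := by positivity
  by_cases hpd : p ∣ d
  · have h1 : EM p (fun c : Mon n d → ZMod p => bd p c) ≤ 1 := by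
      rw [← EM_const (ι := Mon n d) p 1]
      exact EM_mono p _ _ fun c => bd_le p c
    refine h1.trans ?_
    rw [le_div_iff₀ hp0, one_mul, DD]
    have h2 : p ≤ d := Nat.le_of_dvd (by omega) hpd
    have h3 : (p : ℝ) ≤ d := by exact_mod_cast h2
    have h4 : (0 : ℝ) ≤ (Delta n d).totalDegree := by positivity
    linarith
  · have h1 := card_bad n d p hpd
    have h2 : ∑ c : Mon n d → ZMod p, bd p c =
        ((Nat.card {c : Mon n d → ZMod p // IsBad p c} : ℕ) : ℝ) := by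
      rw [Nat.card_eq_fintype_card, Fintype.card_subtype]
      simp [bd]
    unfold EM
    rw [h2, div_le_div_iff₀ hM hp0]
    refine h1.trans ?_
    gcongr
    unfold DD
    have : (0 : ℝ) ≤ d := by positivity
    linarith

theorem EB_bd {n d : ℕ} (hd : 1 ≤ d) (H p : ℕ) [Fact p.Prime] (hp : p ≤ 2 * H + 1) :
    EB H (fun c : Mon n d → ℤ => bd p (red p c)) ≤ 2 ^ MM n d * (DD n d / p) := by
  refine (EB_le H p hp (fun c => bd p c) (fun c => bd_nonneg p c)).trans ?_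
  exact mul_le_mul_of_nonneg_left (EM_bd n d p hd) (by positivity)

/-- The contribution of a prime if the reduction is bad. -/
noncomputable def bt (b p : ℕ) {n d : ℕ} (c : Mon n d → ZMod p) : ℝ :=
  bd p c * (|nA p c| + b / p)

/-- The constant of the average of `bt`. -/
noncomputable def K2 (n d b : ℕ) : ℝ := 2 ^ MM n d * ((1 + b) * DD n d + 5)

theorem EB_bt {n d : ℕ} (hn : 1 ≤ n) (hd : 1 ≤ d) (b H p : ℕ) [Fact p.Prime]
    (hp : p ≤ 2 * H + 1) :
    EB H (fun c : Mon n d → ℤ => bt b p (red p c)) ≤ K2 n d b * (1 / (p : ℝ) ^ ((3 : ℝ) / 2)) := by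
  have hp0 := p_pos (p := p)
  have hp1 : (1 : ℝ) ≤ p := by exact_mod_cast (Fact.out : p.Prime).one_lt.le
  set t : ℝ := 1 / (p : ℝ) ^ ((1 : ℝ) / 2) with ht
  have ht0 : 0 < t := by positivity
  have hr : (p : ℝ) ^ ((3 : ℝ) / 2) = p * (p : ℝ) ^ ((1 : ℝ) / 2) := by
    conv_rhs => rw [← Real.rpow_one (p : ℝ)]
    rw [Real.rpow_one, ← Real.rpow_one_add' hp0.le (by norm_num)]
    norm_num
  have hr2 : (p : ℝ) ^ ((1 : ℝ) / 2) * (p : ℝ) ^ ((1 : ℝ) / 2) = p := by
    rw [← Real.rpow_add hp0]; norm_num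
  have hpt : 1 / (p : ℝ) ≤ t := by
    rw [ht]
    apply one_div_le_one_div_of_le (by positivity)
    have h1 : (p : ℝ) ^ ((1 : ℝ) / 2) ≤ (p : ℝ) ^ (1 : ℝ) :=
      Real.rpow_le_rpow_of_exponent_le hp1 (by norm_num)
    rwa [Real.rpow_one] at h1
  have h1 : EB H (fun c : Mon n d → ℤ => bt b p (red p c)) ≤
      EB H (fun c : Mon n d → ℤ => ((1 + b) * t) * bd p (red p c) +
        (1 / t) * nA p (red p c) ^ 2) := by
    apply EB_mono
    intro c
    unfold bt
    set B := bd p (red p c)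
    set A := nA p (red p c)
    have hB0 : 0 ≤ B := bd_nonneg p _
    have hB1 : B ≤ 1 := bd_le p _
    have h2 : |A| ≤ t + (1 / t) * A ^ 2 := by
      have h3 : 0 ≤ (|A| - t) ^ 2 := sq_nonneg _
      have h4 : t * |A| ≤ t * (t + (1 / t) * A ^ 2) := by
        have h5 : t * (t + (1 / t) * A ^ 2) = t ^ 2 + A ^ 2 := by field_simp
        rw [h5]
        have h6 : (|A| - t) ^ 2 = A ^ 2 - 2 * (t * |A|) + t ^ 2 := by rw [sub_sq, sq_abs]; ring
        rw [h6] at h3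
        have h7 : 0 ≤ t * |A| := by positivity
        linarith
      exact le_of_mul_le_mul_left h4 ht0
    have h3 : (b : ℝ) / p ≤ b * t := by
      rw [div_eq_mul_one_div]
      gcongr
    have h4 : 0 ≤ (1 / t) * A ^ 2 := by positivity
    calc B * (|A| + b / p) ≤ B * ((t + (1 / t) * A ^ 2) + b * t) := by gcongr
      _ = (1 + b) * t * B + B * ((1 / t) * A ^ 2) := by ring
      _ ≤ (1 + b) * t * B + 1 * ((1 / t) * A ^ 2) := by gcongr
      _ = _ := by ring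
  refine h1.trans ?_
  rw [EB_add, EB_mul, EB_mul]
  have h5 := EB_bd (n := n) (d := d) hd H p hp
  have h6 := EB_nA_sq (n := n) (d := d) hn hd H p hp
  calc (1 + (b : ℝ)) * t * EB H (fun c : Mon n d → ℤ => bd p (red p c)) +
        1 / t * EB H (fun c : Mon n d → ℤ => nA p (red p c) ^ 2)
      ≤ (1 + (b : ℝ)) * t * (2 ^ MM n d * (DD n d / p)) +
        1 / t * (2 ^ MM n d * (5 / (p : ℝ) ^ 2)) := by gcongr
    _ = _ := by
        have h7 : (p : ℝ) ^ 2 = p * ((p : ℝ) ^ ((1 : ℝ) / 2) * (p : ℝ) ^ ((1 : ℝ) / 2)) := by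
          rw [hr2]; ring
        rw [K2, hr, h7, ht]
        field_simp

/-- The sum at the exponent `u`. -/
noncomputable def Zu (y : ℕ) (u : ℝ) {n d : ℕ} (c : Mon n d → ℤ) : ℝ :=
  ZZ y (fun p => (p : ℝ) ^ (-u)) c

/-- The sum with logarithms. -/
noncomputable def Yu (y : ℕ) (u : ℝ) {n d : ℕ} (c : Mon n d → ℤ) : ℝ :=
  ZZ y (fun p => Real.log p * (p : ℝ) ^ (-u)) c

theorem wt0 (y : ℕ) (u : ℝ) (hu : 0 ≤ u) :
    ∀ p ∈ PR y, |(p : ℝ) ^ (-u)| ≤ 4 * (p : ℝ) ^ ((1 : ℝ) / 4) := by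
  intro p hp
  have hp1 : (1 : ℝ) ≤ p := by exact_mod_cast (mem_PR.mp hp).2.one_lt.le
  rw [abs_of_nonneg (by positivity)]
  have h1 : (p : ℝ) ^ (-u) ≤ 1 := Real.rpow_le_one_of_one_le_of_nonpos hp1 (by linarith)
  have h2 : (1 : ℝ) ≤ (p : ℝ) ^ ((1 : ℝ) / 4) := Real.one_le_rpow hp1 (by norm_num)
  linarith

theorem wt1 (y : ℕ) (u : ℝ) (hu : 0 ≤ u) :
    ∀ p ∈ PR y, |Real.log p * (p : ℝ) ^ (-u)| ≤ 4 * (p : ℝ) ^ ((1 : ℝ) / 4) := by
  intro p hp
  have hp1 : (1 : ℝ) ≤ p := by exact_mod_cast (mem_PR.mp hp).2.one_lt.le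
  have hl : 0 ≤ Real.log p := Real.log_nonneg hp1
  rw [abs_of_nonneg (by positivity)]
  have h1 : (p : ℝ) ^ (-u) ≤ 1 := Real.rpow_le_one_of_one_le_of_nonpos hp1 (by linarith)
  have h2 : Real.log p ≤ (p : ℝ) ^ ((1 : ℝ) / 4) / (1 / 4) :=
    Real.log_le_rpow_div (by linarith) (by norm_num)
  calc Real.log p * (p : ℝ) ^ (-u) ≤ Real.log p * 1 := by gcongr
    _ ≤ _ := by rw [mul_one]; linarith

theorem continuous_Yu (y : ℕ) {n d : ℕ} (c : Mon n d → ℤ) : Continuous fun u => Yu y u c := by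
  unfold Yu ZZ
  refine continuous_finsetSum _ fun p hp => ?_
  have hp0 : (0 : ℝ) < p := by exact_mod_cast (mem_PR.mp hp).2.pos
  exact (continuous_const.mul (Real.continuous_const_rpow hp0.ne' |>.comp continuous_neg)).mul
    continuous_const

theorem hasDerivAt_Zu (y : ℕ) {n d : ℕ} (c : Mon n d → ℤ) (u : ℝ) :
    HasDerivAt (fun u => Zu y u c) (-Yu y u c) u := by
  unfold Zu Yu ZZ
  rw [← Finset.sum_neg_distrib]
  refine HasDerivAt.fun_sum fun p hp => ?_
  have hp0 : (0 : ℝ) < p := by exact_mod_cast (mem_PR.mp hp).2.pos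
  have h1 : HasDerivAt (fun u : ℝ => (p : ℝ) ^ (-u)) (Real.log p * (-1) * (p : ℝ) ^ (-u)) u :=
    (hasDerivAt_neg u).const_rpow hp0
  have h2 := h1.mul_const (nA p (red p c))
  refine h2.congr_deriv ?_
  ring

theorem Zu_le (y : ℕ) {n d : ℕ} (c : Mon n d → ℤ) (ε : ℝ) (h0 : 0 ≤ ε) (h1 : ε ≤ 1) :
    |Zu y ε c| ≤ 2 + Zu y 0 c ^ 2 + ∫ u in (0 : ℝ)..1, Yu y u c ^ 2 := by
  have hc := continuous_Yu y c
  have hY2 : Continuous fun u => Yu y u c ^ 2 := hc.pow 2
  have hY3 : Continuous fun u => 1 + Yu y u c ^ 2 := continuous_const.add hY2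
  have h2 : ∫ u in (0 : ℝ)..ε, -Yu y u c = Zu y ε c - Zu y 0 c :=
    intervalIntegral.integral_eq_sub_of_hasDerivAt (fun u _ => hasDerivAt_Zu y c u)
      (hc.neg.intervalIntegrable _ _)
  have h3 : |∫ u in (0 : ℝ)..ε, -Yu y u c| ≤ ∫ u in (0 : ℝ)..ε, |Yu y u c| := by
    have := intervalIntegral.norm_integral_le_integral_norm (f := fun u => -Yu y u c)
      (μ := MeasureTheory.volume) h0
    simpa using this
  have h4 : ∫ u in (0 : ℝ)..ε, |Yu y u c| ≤ ∫ u in (0 : ℝ)..ε, (1 + Yu y u c ^ 2) := by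
    apply intervalIntegral.integral_mono_on h0 (hc.abs.intervalIntegrable _ _)
      (hY3.intervalIntegrable _ _)
    intro u _
    nlinarith [sq_nonneg (|Yu y u c| - 1), sq_abs (Yu y u c), abs_nonneg (Yu y u c)]
  have h5 : ∫ u in (0 : ℝ)..ε, (1 + Yu y u c ^ 2) ≤ ∫ u in (0 : ℝ)..1, (1 + Yu y u c ^ 2) := by
    apply intervalIntegral.integral_mono_interval le_rfl h0 h1
    · exact Filter.Eventually.of_forall fun u => by positivity
    · exact hY3.intervalIntegrable _ _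
  have h6 : ∫ u in (0 : ℝ)..1, (1 + Yu y u c ^ 2) = 1 + ∫ u in (0 : ℝ)..1, Yu y u c ^ 2 := by
    rw [intervalIntegral.integral_add intervalIntegrable_const (hY2.intervalIntegrable _ _)]
    simp
  have h7 : |Zu y 0 c| ≤ 1 + Zu y 0 c ^ 2 := by
    nlinarith [sq_nonneg (|Zu y 0 c| - 1), sq_abs (Zu y 0 c), abs_nonneg (Zu y 0 c)]
  have h8 : |Zu y ε c| ≤ |Zu y 0 c| + |Zu y ε c - Zu y 0 c| := by
    have := abs_add_le (Zu y 0 c) (Zu y ε c - Zu y 0 c)
    rwa [add_sub_cancel] at this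
  rw [← h2] at h8
  linarith

/-- The majorant. -/
noncomputable def GG (b y : ℕ) {n d : ℕ} (c : Mon n d → ℤ) : ℝ :=
  2 + Zu y 0 c ^ 2 + (∫ u in (0 : ℝ)..1, Yu y u c ^ 2) + ∑ p ∈ PR y, bt b p (red p c)

/-- The constant of the average of the majorant. -/
noncomputable def K3 (n d b : ℕ) : ℝ := 2 + 2 * KK n d + K2 n d b * SS

theorem EB_GG {n d : ℕ} (hn : 1 ≤ n) (hd : 1 ≤ d) (b H y : ℕ) (hy : y ^ 4 ≤ H) :
    EB H (fun c : Mon n d → ℤ => GG b y c) ≤ K3 n d b := by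
  have hyH : y ≤ 2 * H + 1 := by
    rcases Nat.eq_zero_or_pos y with h0 | h0
    · omega
    · have h1 : y ^ 1 ≤ y ^ 4 := Nat.pow_le_pow_right h0 (by norm_num)
      rw [pow_one] at h1
      omega
  unfold GG
  rw [EB_add, EB_add, EB_add, EB_const, EB_sum]
  have h1 : EB H (fun c : Mon n d → ℤ => Zu y 0 c ^ 2) ≤ KK n d :=
    EB_ZZ_sq hn hd H y hy _ (wt0 y 0 le_rfl)
  have h2 : EB H (fun c : Mon n d → ℤ => ∫ u in (0 : ℝ)..1, Yu y u c ^ 2) ≤ KK n d := by
    have h3 : EB H (fun c : Mon n d → ℤ => ∫ u in (0 : ℝ)..1, Yu y u c ^ 2) =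
        ∫ u in (0 : ℝ)..1, EB H (fun c : Mon n d → ℤ => Yu y u c ^ 2) := by
      unfold EB
      rw [intervalIntegral.integral_div, intervalIntegral.integral_finsetSum]
      intro c _
      exact ((continuous_Yu y c).pow 2).intervalIntegrable _ _
    have hcont : Continuous fun u => EB H (fun c : Mon n d → ℤ => Yu y u c ^ 2) := by
      unfold EB
      exact (continuous_finsetSum _ fun c _ => (continuous_Yu y c).pow 2).div_const _
    have h4 : ∫ u in (0 : ℝ)..1, EB H (fun c : Mon n d → ℤ => Yu y u c ^ 2) ≤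
        ∫ u in (0 : ℝ)..1, KK n d := by
      apply intervalIntegral.integral_mono_on zero_le_one (hcont.intervalIntegrable _ _) (by simp)
      intro u hu
      exact EB_ZZ_sq hn hd H y hy _ (wt1 y u hu.1)
    rw [h3]
    simpa using h4
  have h5 : ∑ p ∈ PR y, EB H (fun c : Mon n d → ℤ => bt b p (red p c)) ≤ K2 n d b * SS := by
    have h6 : ∀ p ∈ PR y, EB H (fun c : Mon n d → ℤ => bt b p (red p c)) ≤
        K2 n d b * (1 / (p : ℝ) ^ ((3 : ℝ) / 2)) := by
      intro p hp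
      have := Fact.mk (mem_PR.mp hp).2
      exact EB_bt hn hd b H p ((mem_PR.mp hp).1.trans hyH)
    refine (Finset.sum_le_sum h6).trans ?_
    rw [← Finset.mul_sum]
    refine mul_le_mul_of_nonneg_left (sum_le_SS _) ?_
    unfold K2 DD
    positivity
  unfold K3
  linarith

end Pool.Agent.Y722.HS
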