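import Pool.Agent.Y722.HS.Disc

/-!
# The proportion of the forms with bad reduction
-/

set_option autoImplicit false

namespace Pool.Agent.Y722.HS

open Finset

/-- The form with coefficients `c` has bad reduction at `p` (in a sense that includes all forms that
are singular modulo `p`). -/
def IsBad {n d : ℕ} (p : ℕ) (c : Mon n d → ZMod p) : Prop := (T c).det = 0

theorem isSmooth_of_not_isBad {n d : ℕ} (p : ℕ) [Fact p.Prime] (hd : 1 ≤ d) (c : Mon n d → ZMod p)
    (h : ¬ IsBad p c) :
    IsSmooth (MvPolynomial.map (algebraMap (ZMod p) (AlgebraicClosure (ZMod p))) (form c)) := by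
  have h1 : MvPolynomial.map (algebraMap (ZMod p) (AlgebraicClosure (ZMod p))) (form c) =
      form (fun m => algebraMap (ZMod p) (AlgebraicClosure (ZMod p)) (c m)) := by
    simp [form, map_sum, map_prod]
  rw [h1]
  apply smooth_of_det hd
  have h2 : T (fun m => algebraMap (ZMod p) (AlgebraicClosure (ZMod p)) (c m)) =
      (algebraMap (ZMod p) (AlgebraicClosure (ZMod p))).mapMatrix (T c) := by
    ext μ ν
    simp only [T, RingHom.mapMatrix_apply, Matrix.map_apply, map_sum, map_mul, map_natCast]
    refine Finset.sum_congr rfl fun m _ => ?_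
    congr 2
    split_ifs <;> simp
  rw [h2, ← RingHom.map_det]
  intro h3
  exact h ((map_eq_zero _).mp h3)

/-- The proportion of the forms over `𝔽_p` with bad reduction is at most `D / p`. -/
theorem card_bad (n d : ℕ) (p : ℕ) [Fact p.Prime] (hp : ¬ p ∣ d) :
    ((Nat.card {c : Mon n d → ZMod p // IsBad p c} : ℕ) : ℝ) * p ≤
      (Delta n d).totalDegree * (p : ℝ) ^ Fintype.card (Mon n d) := by
  classical
  set e : Mon n d ≃ Fin (Fintype.card (Mon n d)) := Fintype.equivFin _ with he
  set P0 : MvPolynomial (Mon n d) (ZMod p) := MvPolynomial.map (Int.castRingHom (ZMod p)) (Delta n d)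
    with hP0
  have hev : ∀ c : Mon n d → ZMod p, MvPolynomial.eval c P0 = (T c).det := by
    intro c
    rw [hP0, MvPolynomial.eval_map, eval_Delta]
  have hne : P0 ≠ 0 := by
    intro h0
    have h1 := hev (fermat n d (ZMod p))
    rw [h0, map_zero, T_fermat, Matrix.det_diagonal, Finset.prod_const] at h1
    have h2 : (d : ZMod p) = 0 := by
      by_contra h3
      exact pow_ne_zero _ h3 h1.symm
    exact hp ((ZMod.natCast_eq_zero_iff d p).mp h2)
  set P : MvPolynomial (Fin (Fintype.card (Mon n d))) (ZMod p) := MvPolynomial.rename e P0 with hP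
  have hPne : P ≠ 0 := by
    intro h0
    apply hne
    exact (MvPolynomial.rename_injective e e.injective) (by rw [map_zero]; exact h0)
  have hPdeg : P.totalDegree ≤ (Delta n d).totalDegree := by
    refine le_trans (MvPolynomial.totalDegree_rename_le _ _) ?_
    refine Finset.sup_mono ?_
    exact MvPolynomial.support_map_subset _ _
  have hSZ := MvPolynomial.schwartz_zippel_totalDegree hPne (Finset.univ : Finset (ZMod p))
  have hcard : (#{f ∈ Fintype.piFinset fun _ : Fin (Fintype.card (Mon n d)) =>
      (Finset.univ : Finset (ZMod p)) | MvPolynomial.eval f P = 0}) =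
      Nat.card {c : Mon n d → ZMod p // IsBad p c} := by
    have hN : Nat.card {c : Mon n d → ZMod p // IsBad p c} =
        #{c : Mon n d → ZMod p | IsBad p c} := by
      rw [Nat.card_eq_fintype_card, Fintype.card_subtype]
    rw [hN]
    refine Finset.card_bij' (fun f _ => fun m => f (e m)) (fun c _ => fun i => c (e.symm i)) ?_ ?_ ?_ ?_
    · intro f hf
      simp only [Finset.mem_filter, Finset.mem_univ, true_and]
      have h1 : MvPolynomial.eval f P = 0 := (Finset.mem_filter.mp hf).2
      rw [hP, MvPolynomial.eval_rename] at h1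
      unfold IsBad
      rw [← hev]
      exact h1
    · intro c hc
      simp only [Finset.mem_filter, Finset.mem_univ, true_and] at hc
      simp only [Finset.mem_filter, Fintype.mem_piFinset, Finset.mem_univ, implies_true, true_and]
      rw [hP, MvPolynomial.eval_rename]
      unfold IsBad at hc
      rw [← hev] at hc
      have hcomp : (fun i => c (e.symm i)) ∘ e = c := by
        funext m
        simp
      rw [hcomp]
      exact hc
    · intro f _
      funext i
      simp
    · intro c _
      funext m
      simp
  rw [hcard, Finset.card_univ, ZMod.card] at hSZ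
  have hp0 : (0 : ℝ) < p := by exact_mod_cast (Fact.out : p.Prime).pos
  have h1 : ((Nat.card {c : Mon n d → ZMod p // IsBad p c} : ℕ) : ℝ) /
      (p : ℝ) ^ Fintype.card (Mon n d) ≤ (P.totalDegree : ℝ) / p := by
    have h2 := (NNRat.cast_le (K := ℝ)).mpr hSZ
    push_cast at h2
    exact h2
  rw [div_le_div_iff₀ (by positivity) hp0] at h1
  refine h1.trans ?_
  gcongr

end Pool.Agent.Y722.HS
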