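import Mathlib

/-!
# Integer vectors in a box, modulo one or two primes
-/

set_option autoImplicit false

namespace Pool.Agent.Y722.HS

open Finset

/-- The integers of absolute value at most `H`. -/
noncomputable def IH (H : ℕ) : Finset ℤ := Finset.Icc (-(H : ℤ)) H

/-- The integer vectors with coordinates of absolute value at most `H`. -/
noncomputable def box (ι : Type*) [Fintype ι] [DecidableEq ι] (H : ℕ) : Finset (ι → ℤ) :=
  Fintype.piFinset fun _ => IH H

/-- The average over the box. -/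
noncomputable def EB {ι : Type*} [Fintype ι] [DecidableEq ι] (H : ℕ) (f : (ι → ℤ) → ℝ) : ℝ :=
  (∑ c ∈ box ι H, f c) / (2 * H + 1 : ℝ) ^ Fintype.card ι

/-- The average over the vectors with coordinates in `ZMod p`. -/
noncomputable def EM {ι : Type*} [Fintype ι] [DecidableEq ι] (p : ℕ) [NeZero p]
    (f : (ι → ZMod p) → ℝ) : ℝ :=
  (∑ c, f c) / (p : ℝ) ^ Fintype.card ι

/-- Reduction modulo `p`. -/
def red {ι : Type*} (p : ℕ) (c : ι → ℤ) : ι → ZMod p := fun i => (c i : ZMod p)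

theorem cnt_mod (H N : ℕ) (hN : 0 < N) (v : ℤ) :
    |((#{z ∈ IH H | z ≡ v [ZMOD N]} : ℕ) : ℝ) - (2 * H + 1) / N| ≤ 1 := by
  have h0 : IH H = Finset.Ioc (-(H : ℤ) - 1) H := by
    ext z; simp only [IH, Finset.mem_Icc, Finset.mem_Ioc]; omega
  rw [h0]
  have h1 := Int.Ioc_filter_modEq_card (-(H : ℤ) - 1) (H : ℤ) (r := (N : ℤ)) (by exact_mod_cast hN) v
  have hNq : (0 : ℚ) < N := by exact_mod_cast hN
  set A : ℚ := (((H : ℤ) : ℚ) - v) / ((N : ℤ) : ℚ) with hA
  set B : ℚ := ((((-(H : ℤ) - 1) : ℤ) : ℚ) - v) / ((N : ℤ) : ℚ) with hB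
  have hAB : A - B = (2 * H + 1) / N := by
    rw [hA, hB]; push_cast; field_simp; ring
  have hpos : 0 ≤ A - B := by rw [hAB]; positivity
  have hfl : 0 ≤ ⌊A⌋ - ⌊B⌋ := by
    have : ⌊B⌋ ≤ ⌊A⌋ := Int.floor_le_floor (by linarith)
    omega
  rw [max_eq_left hfl] at h1
  have h2 : |(((⌊A⌋ - ⌊B⌋ : ℤ)) : ℚ) - (A - B)| ≤ 1 := by
    push_cast
    have a1 := Int.floor_le A
    have a2 := Int.lt_floor_add_one A
    have b1 := Int.floor_le B
    have b2 := Int.lt_floor_add_one B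
    rw [abs_le]
    constructor <;> linarith
  rw [← h1, hAB] at h2
  have h3 : |((((#{z ∈ Finset.Ioc (-(H : ℤ) - 1) H | z ≡ v [ZMOD N]} : ℕ) : ℤ) : ℚ) : ℝ) -
      (((2 * H + 1) / N : ℚ) : ℝ)| ≤ 1 := by
    have := (Rat.cast_le (K := ℝ)).mpr h2
    push_cast at this ⊢
    exact this
  push_cast at h3
  exact h3

theorem cnt_one_mod (H p : ℕ) [NeZero p] (r : ZMod p) :
    |((#{z ∈ IH H | ((z : ℤ) : ZMod p) = r} : ℕ) : ℝ) - (2 * H + 1) / p| ≤ 1 := by
  have h1 := cnt_mod H p (Nat.pos_of_ne_zero (NeZero.ne p)) (r.cast : ℤ)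
  have h2 : {z ∈ IH H | ((z : ℤ) : ZMod p) = r} =
      {z ∈ IH H | z ≡ (r.cast : ℤ) [ZMOD p]} := by
    refine Finset.filter_congr fun z _ => ?_
    rw [← ZMod.intCast_eq_intCast_iff, ZMod.intCast_zmod_cast]
  rw [h2]
  exact h1

theorem cnt_two_mod (H p q : ℕ) [NeZero p] [NeZero q] (hpq : Nat.Coprime p q) (r : ZMod p)
    (s : ZMod q) :
    |((#{z ∈ IH H | ((z : ℤ) : ZMod p) = r ∧ ((z : ℤ) : ZMod q) = s} : ℕ) : ℝ) -
      (2 * H + 1) / (p * q)| ≤ 1 := by
  have hN : 0 < p * q := Nat.mul_pos (Nat.pos_of_ne_zero (NeZero.ne p))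
    (Nat.pos_of_ne_zero (NeZero.ne q))
  set v : ℤ := (((Nat.chineseRemainder hpq r.val s.val : ℕ)) : ℤ) with hv
  have hv1 : (v : ZMod p) = r := by
    have h1 := (Nat.chineseRemainder hpq r.val s.val).2.1
    rw [hv]
    have h2 := (ZMod.natCast_eq_natCast_iff _ _ _).mpr h1
    rw [Int.cast_natCast, h2, ZMod.natCast_zmod_val]
  have hv2 : (v : ZMod q) = s := by
    have h1 := (Nat.chineseRemainder hpq r.val s.val).2.2
    rw [hv]
    have h2 := (ZMod.natCast_eq_natCast_iff _ _ _).mpr h1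
    rw [Int.cast_natCast, h2, ZMod.natCast_zmod_val]
  have h1 := cnt_mod H (p * q) hN v
  have h2 : {z ∈ IH H | ((z : ℤ) : ZMod p) = r ∧ ((z : ℤ) : ZMod q) = s} =
      {z ∈ IH H | z ≡ v [ZMOD ((p * q : ℕ) : ℤ)]} := by
    refine Finset.filter_congr fun z _ => ?_
    rw [← hv1, ← hv2, ZMod.intCast_eq_intCast_iff, ZMod.intCast_eq_intCast_iff, Nat.cast_mul]
    exact Int.modEq_and_modEq_iff_modEq_mul (by simpa using hpq)
  rw [h2]
  have h3 : ((p * q : ℕ) : ℝ) = p * q := by push_cast; rfl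
  rw [h3] at h1
  exact h1

theorem prod_near {ι : Type*} (s : Finset ι) (x : ι → ℝ) (L : ℝ) (hL : 0 ≤ L)
    (hx : ∀ i ∈ s, 0 ≤ x i) (h : ∀ i ∈ s, |x i - L| ≤ 1) :
    0 ≤ ∏ i ∈ s, x i ∧ ∏ i ∈ s, x i ≤ (L + 1) ^ s.card ∧
      |∏ i ∈ s, x i - L ^ s.card| ≤ (L + 1) ^ s.card - L ^ s.card := by
  classical
  induction s using Finset.induction_on with
  | empty => simp
  | insert a s ha ih =>
    obtain ⟨h1, h2, h3⟩ := ih (fun i hi => hx i (Finset.mem_insert_of_mem hi))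
      (fun i hi => h i (Finset.mem_insert_of_mem hi))
    have hxa := hx a (Finset.mem_insert_self a s)
    have ha1 := h a (Finset.mem_insert_self a s)
    have hxa2 : x a ≤ L + 1 := by have := (abs_le.mp ha1).2; linarith
    rw [Finset.prod_insert ha, Finset.card_insert_of_notMem ha]
    refine ⟨mul_nonneg hxa h1, ?_, ?_⟩
    · rw [pow_succ, mul_comm]
      gcongr
    · have e : x a * ∏ i ∈ s, x i - L ^ (s.card + 1) =
          (x a - L) * ∏ i ∈ s, x i + L * (∏ i ∈ s, x i - L ^ s.card) := by ring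
      rw [e]
      refine (abs_add_le _ _).trans ?_
      rw [abs_mul, abs_mul, abs_of_nonneg h1, abs_of_nonneg hL]
      have h4 : |x a - L| * ∏ i ∈ s, x i ≤ 1 * (L + 1) ^ s.card := by gcongr
      have h5 : L * |∏ i ∈ s, x i - L ^ s.card| ≤ L * ((L + 1) ^ s.card - L ^ s.card) := by gcongr
      calc _ ≤ 1 * (L + 1) ^ s.card + L * ((L + 1) ^ s.card - L ^ s.card) := add_le_add h4 h5
        _ = _ := by ring

theorem pow_bd (k : ℕ) (t : ℝ) (h0 : 0 ≤ t) (h1 : t ≤ 1) : (1 + t) ^ k ≤ 1 + (2 ^ k - 1) * t := by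
  induction k with
  | zero => simp
  | succ k ih =>
    have h2 : (1 : ℝ) ≤ 2 ^ k := one_le_pow₀ (by norm_num)
    rw [pow_succ]
    calc (1 + t) ^ k * (1 + t) ≤ (1 + (2 ^ k - 1) * t) * (1 + t) := by gcongr
      _ = 1 + t + (2 ^ k - 1) * t + (2 ^ k - 1) * (t * t) := by ring
      _ ≤ 1 + t + (2 ^ k - 1) * t + (2 ^ k - 1) * t := by
          have : t * t ≤ t := by nlinarith
          have := mul_le_mul_of_nonneg_left this (by linarith : (0 : ℝ) ≤ 2 ^ k - 1)
          linarith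
      _ = _ := by ring

section
variable {ι : Type*} [Fintype ι] [DecidableEq ι]

theorem card_red (H p : ℕ) [NeZero p] (r : ι → ZMod p) :
    #{c ∈ box ι H | red p c = r} =
      ∏ i, #{z ∈ IH H | ((z : ℤ) : ZMod p) = r i} := by
  rw [← Fintype.card_piFinset]
  congr 1
  ext c
  simp only [box, Finset.mem_filter, Fintype.mem_piFinset, red, funext_iff]
  exact forall_and.symm

theorem card_red_two (H p q : ℕ) [NeZero p] [NeZero q] (r : ι → ZMod p) (s : ι → ZMod q) :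
    #{c ∈ box ι H | red p c = r ∧ red q c = s} =
      ∏ i, #{z ∈ IH H | ((z : ℤ) : ZMod p) = r i ∧ ((z : ℤ) : ZMod q) = s i} := by
  rw [← Fintype.card_piFinset]
  congr 1
  ext c
  simp only [box, Finset.mem_filter, Fintype.mem_piFinset, red, funext_iff]
  rw [← forall_and, ← forall_and]

theorem EB_le (H p : ℕ) [NeZero p] (hp : p ≤ 2 * H + 1) (g : (ι → ZMod p) → ℝ) (hg : ∀ r, 0 ≤ g r) :
    EB H (fun c => g (red p c)) ≤ 2 ^ Fintype.card ι * EM p g := by
  classical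
  have hp0 : (0 : ℝ) < p := by exact_mod_cast Nat.pos_of_ne_zero (NeZero.ne p)
  have hL : (1 : ℝ) ≤ (2 * H + 1) / p := by
    rw [le_div_iff₀ hp0, one_mul]; exact_mod_cast hp
  unfold EB EM
  rw [div_le_iff₀ (by positivity), ← Finset.sum_fiberwise' (box ι H) (red p) g]
  have h1 : ∀ r : ι → ZMod p, ∑ _c ∈ box ι H with red p _c = r, g r ≤
      ((2 * ((2 * H + 1) / p) : ℝ)) ^ Fintype.card ι * g r := by
    intro r
    rw [Finset.sum_const, nsmul_eq_mul, card_red]
    refine mul_le_mul_of_nonneg_right ?_ (hg r)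
    have h2 := (prod_near Finset.univ (fun i => ((#{z ∈ IH H |
      ((z : ℤ) : ZMod p) = r i} : ℕ) : ℝ)) ((2 * H + 1) / p) (by positivity) (fun i _ => by positivity)
      (fun i _ => cnt_one_mod H p (r i))).2.1
    push_cast
    refine h2.trans ?_
    rw [Finset.card_univ]
    gcongr
    linarith
  refine (Finset.sum_le_sum fun r _ => h1 r).trans ?_
  rw [← Finset.mul_sum]
  apply le_of_eq
  rw [mul_pow, div_pow]
  ring

theorem EB_two (H p q : ℕ) [NeZero p] [NeZero q] (hpq : Nat.Coprime p q) (hp : p * q ≤ 2 * H + 1)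
    (f : (ι → ZMod p) → ℝ) (g : (ι → ZMod q) → ℝ) :
    |EB H (fun c => f (red p c) * g (red q c)) - EM p f * EM q g| ≤
      2 ^ Fintype.card ι * ((p : ℝ) * q / (2 * H + 1)) * (EM p (fun r => |f r|) *
        EM q (fun r => |g r|)) := by
  classical
  have hp0 : (0 : ℝ) < p := by exact_mod_cast Nat.pos_of_ne_zero (NeZero.ne p)
  have hq0 : (0 : ℝ) < q := by exact_mod_cast Nat.pos_of_ne_zero (NeZero.ne q)
  have hH : (0 : ℝ) < 2 * H + 1 := by positivity
  set k := Fintype.card ι with hk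
  set L : ℝ := (2 * H + 1) / (p * q) with hLdef
  have hL0 : 0 < L := by positivity
  have hL : (1 : ℝ) ≤ L := by
    rw [hLdef, le_div_iff₀ (by positivity), one_mul]; exact_mod_cast hp
  have e1 : ∑ c ∈ box ι H, f (red p c) * g (red q c) =
      ∑ r : (ι → ZMod p) × (ι → ZMod q), ((#{c ∈ box ι H | red p c = r.1 ∧ red q c = r.2} : ℕ) : ℝ) *
        (f r.1 * g r.2) := by
    have := Finset.sum_fiberwise' (box ι H) (fun c => (red p c, red q c))
      (fun r : (ι → ZMod p) × (ι → ZMod q) => f r.1 * g r.2)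
    rw [← this]
    refine Finset.sum_congr rfl fun r _ => ?_
    rw [Finset.sum_const, nsmul_eq_mul]
    congr 3
    ext c
    simp [Prod.ext_iff]
  have e2 : EM p f * EM q g = (∑ r : (ι → ZMod p) × (ι → ZMod q), L ^ k * (f r.1 * g r.2)) /
      (2 * H + 1) ^ k := by
    unfold EM
    rw [← Finset.mul_sum, Fintype.sum_prod_type, hLdef, div_pow, mul_pow]
    simp_rw [← Finset.mul_sum]
    rw [← Finset.sum_mul, ← hk]
    field_simp
  have hcoef : ∀ r : (ι → ZMod p) × (ι → ZMod q),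
      |((#{c ∈ box ι H | red p c = r.1 ∧ red q c = r.2} : ℕ) : ℝ) - L ^ k| ≤
        L ^ k * (2 ^ k * (1 / L)) := by
    intro r
    rw [card_red_two]
    have h2 := (prod_near Finset.univ (fun i => ((#{z ∈ IH H |
      ((z : ℤ) : ZMod p) = r.1 i ∧ ((z : ℤ) : ZMod q) = r.2 i} : ℕ) : ℝ)) L hL0.le (fun i _ => by positivity)
      (fun i _ => cnt_two_mod H p q hpq (r.1 i) (r.2 i))).2.2
    rw [Finset.card_univ, ← hk] at h2
    push_cast
    refine h2.trans ?_
    have h3 := pow_bd k (1 / L) (by positivity) (by rw [div_le_one hL0]; exact hL)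
    have h4 : (L + 1) ^ k = L ^ k * (1 + 1 / L) ^ k := by
      rw [← mul_pow]; congr 1; field_simp
    have h5 : (0 : ℝ) < 1 / L := by positivity
    rw [h4]
    have h6 : L ^ k * (1 + 1 / L) ^ k ≤ L ^ k * (1 + (2 ^ k - 1) * (1 / L)) := by gcongr
    have h7 : 0 < L ^ k := by positivity
    nlinarith
  unfold EB
  rw [e1, e2, ← sub_div, ← Finset.sum_sub_distrib, abs_div, abs_of_pos (by positivity :
    (0 : ℝ) < (2 * H + 1) ^ Fintype.card ι), ← hk, div_le_iff₀ (by positivity)]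
  refine (Finset.abs_sum_le_sum_abs _ _).trans ?_
  have h8 : ∀ r : (ι → ZMod p) × (ι → ZMod q),
      |((#{c ∈ box ι H | red p c = r.1 ∧ red q c = r.2} : ℕ) : ℝ) * (f r.1 * g r.2) -
        L ^ k * (f r.1 * g r.2)| ≤ L ^ k * (2 ^ k * (1 / L)) * (|f r.1| * |g r.2|) := by
    intro r
    rw [← sub_mul, abs_mul, abs_mul]
    exact mul_le_mul_of_nonneg_right (hcoef r) (by positivity)
  refine (Finset.sum_le_sum fun r _ => h8 r).trans ?_
  apply le_of_eq
  unfold EM
  rw [← Finset.mul_sum, Fintype.sum_prod_type]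
  simp_rw [← Finset.mul_sum]
  rw [← Finset.sum_mul, ← hk]
  have h9 : L ^ k = (2 * H + 1) ^ k / (p ^ k * q ^ k) := by rw [hLdef, div_pow, mul_pow]
  have h10 : 1 / L = p * q / (2 * H + 1) := by rw [hLdef]; field_simp
  rw [h9, h10]
  field_simp

end

end Pool.Agent.Y722.HS
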