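import Pool.Agent.Y722.HS.Form

/-!
# A polynomial in the coefficients that vanishes at the singular forms

Every monomial `μ` of degree `(n + 1) (d - 2) + 1` is divisible by some `x_i^{d-1}`.  The rows of the
matrix `T` are the coefficients of `(x^μ / x_i^{d-1}) ∂F/∂x_i`.
-/

set_option autoImplicit false

namespace Pool.Agent.Y722.HS

open Finset

/-- A monomial with given exponents. -/
def mkMon {n D : ℕ} (f : Fin (n + 1) → ℕ) (h : ∑ i, f i = D) : Mon n D :=
  ⟨fun i => ⟨f i, Nat.lt_succ_of_le (h ▸ Finset.single_le_sum (f := f) (fun _ _ => Nat.zero_le _)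
    (Finset.mem_univ i))⟩, by simpa using h⟩

@[simp] theorem mkMon_apply {n D : ℕ} (f : Fin (n + 1) → ℕ) (h : ∑ i, f i = D) (i : Fin (n + 1)) :
    (((mkMon f h).1 i : Fin (D + 1)) : ℕ) = f i := rfl

/-- The degree of the rows. -/
def N0 (n d : ℕ) : ℕ := (n + 1) * (d - 2) + 1

theorem exists_piv {n d : ℕ} (μ : Mon n (N0 n d)) : ∃ i, d - 1 ≤ (μ.1 i : ℕ) := by
  by_contra hcon
  push Not at hcon
  have h1 : ∑ i, (μ.1 i : ℕ) ≤ ∑ _i : Fin (n + 1), (d - 2) :=
    Finset.sum_le_sum fun i _ => by have := hcon i; omega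
  rw [μ.2] at h1
  simp [N0] at h1

/-- A variable whose `(d-1)`-st power divides the monomial. -/
noncomputable def piv {n d : ℕ} (μ : Mon n (N0 n d)) : Fin (n + 1) := (exists_piv μ).choose

theorem piv_spec {n d : ℕ} (μ : Mon n (N0 n d)) : d - 1 ≤ (μ.1 (piv μ) : ℕ) :=
  (exists_piv μ).choose_spec

/-- The condition that the monomial `ν` occurs in the row `μ` with the coefficient of `m`. -/
def Cond {n d : ℕ} (m : Mon n d) (μ ν : Mon n (N0 n d)) : Prop :=
  ∀ j, (m.1 j : ℕ) + (μ.1 j : ℕ) = (ν.1 j : ℕ) + if j = piv μ then d else 0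

noncomputable instance {n d : ℕ} (m : Mon n d) (μ ν : Mon n (N0 n d)) : Decidable (Cond m μ ν) :=
  Classical.dec _

/-- The matrix. -/
noncomputable def T {n d : ℕ} {R : Type*} [CommRing R] (c : Mon n d → R) :
    Matrix (Mon n (N0 n d)) (Mon n (N0 n d)) R :=
  fun μ ν => ∑ m, c m * (((m.1 (piv μ) : ℕ) : R) * if Cond m μ ν then 1 else 0)

/-- The determinant as a polynomial in the coefficients. -/
noncomputable def Delta (n d : ℕ) : MvPolynomial (Mon n d) ℤ :=
  (T (fun m => MvPolynomial.X m)).det

theorem eval_Delta {n d : ℕ} {R : Type*} [CommRing R] (c : Mon n d → R) :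
    MvPolynomial.eval₂ (Int.castRingHom R) c (Delta n d) = (T c).det := by
  have h1 : MvPolynomial.eval₂ (Int.castRingHom R) c (Delta n d) =
      (MvPolynomial.eval₂Hom (Int.castRingHom R) c) (Delta n d) := rfl
  rw [h1, Delta, RingHom.map_det]
  congr 1
  ext μ ν
  simp only [T, RingHom.mapMatrix_apply, Matrix.map_apply, map_sum, map_mul, map_natCast]
  refine Finset.sum_congr rfl fun m _ => ?_
  congr 1
  · simp
  · congr 1
    split_ifs <;> simp

theorem row_eval {n d : ℕ} {R : Type*} [CommRing R] (c : Mon n d → R) (x : Fin (n + 1) → R)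
    (hd : 1 ≤ d) (μ : Mon n (N0 n d)) :
    ∑ ν, T c μ ν * mev x ν = (x (piv μ) ^ ((μ.1 (piv μ) : ℕ) - (d - 1)) *
      ∏ i ∈ univ.erase (piv μ), x i ^ (μ.1 i : ℕ)) *
      MvPolynomial.eval x (MvPolynomial.pderiv (piv μ) (form c)) := by
  rw [eval_pderiv]
  set k := piv μ with hk
  have hpiv : d - 1 ≤ (μ.1 k : ℕ) := piv_spec μ
  simp only [T, Finset.sum_mul]
  rw [Finset.sum_comm, Finset.mul_sum]
  refine Finset.sum_congr rfl fun m _ => ?_
  rw [← hk]
  rcases Nat.eq_zero_or_pos (m.1 k : ℕ) with h0 | h0
  · simp [h0]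
  · have hs : ∑ j, ((m.1 j : ℕ) + (μ.1 j : ℕ) - if j = k then d else 0) = N0 n d := by
      have h1 : ∑ j, ((m.1 j : ℕ) + (μ.1 j : ℕ) - if j = k then d else 0) +
          ∑ j : Fin (n + 1), (if j = k then d else 0) = ∑ j, ((m.1 j : ℕ) + (μ.1 j : ℕ)) := by
        rw [← Finset.sum_add_distrib]
        refine Finset.sum_congr rfl fun j _ => Nat.sub_add_cancel ?_
        split_ifs with hj
        · subst hj; omega
        · exact Nat.zero_le _
      rw [Finset.sum_add_distrib, m.2, μ.2, Finset.sum_ite_eq' univ k (fun _ => d)] at h1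
      simp only [Finset.mem_univ, if_true] at h1
      omega
    rw [Finset.sum_eq_single (mkMon _ hs)]
    · rw [if_pos]
      · have hm : mev x (mkMon _ hs) = x k ^ ((m.1 k : ℕ) + (μ.1 k : ℕ) - d) *
            ∏ i ∈ univ.erase k, (x i ^ (m.1 i : ℕ) * x i ^ (μ.1 i : ℕ)) := by
          unfold mev
          rw [← Finset.mul_prod_erase univ _ (Finset.mem_univ k)]
          congr 1
          · simp
          · refine Finset.prod_congr rfl fun i hi => ?_
            have : i ≠ k := Finset.ne_of_mem_erase hi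
            rw [mkMon_apply, if_neg this, Nat.sub_zero, pow_add]
        rw [hm, Finset.prod_mul_distrib]
        have he : (m.1 k : ℕ) + (μ.1 k : ℕ) - d = ((μ.1 k : ℕ) - (d - 1)) + ((m.1 k : ℕ) - 1) := by
          omega
        rw [he, pow_add]
        ring
      · intro j
        rw [mkMon_apply, ← hk]
        split_ifs with hj
        · subst hj; omega
        · simp
    · intro ν _ hν
      rw [if_neg]
      · simp
      · intro hc
        apply hν
        apply Subtype.ext
        funext j
        apply Fin.ext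
        rw [mkMon_apply]
        have := hc j
        rw [← hk] at this
        omega
    · intro h
      exact absurd (Finset.mem_univ _) h

/-- **The criterion for smoothness.** -/
theorem smooth_of_det {n d : ℕ} {K : Type*} [Field K] (hd : 1 ≤ d) (c : Mon n d → K)
    (h : (T c).det ≠ 0) : IsSmooth (form c) := by
  intro x hx _
  by_contra hcon
  push Not at hcon
  apply h
  obtain ⟨i, hi⟩ : ∃ i, x i ≠ 0 := Function.ne_iff.mp hx
  refine Matrix.exists_mulVec_eq_zero_iff.mp ⟨fun ν => mev x ν, ?_, ?_⟩
  · intro h0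
    have hs : ∑ j : Fin (n + 1), (if j = i then N0 n d else 0) = N0 n d := by simp
    have h1 := congrFun h0 (mkMon _ hs)
    simp only [mev, mkMon_apply, Pi.zero_apply] at h1
    rw [Finset.prod_eq_zero_iff] at h1
    obtain ⟨j, _, hj⟩ := h1
    split_ifs at hj with hji
    · subst hji
      exact hi ((pow_eq_zero_iff (by unfold N0; omega)).mp hj)
    · simp at hj
  · funext μ
    have h1 := row_eval c x hd μ
    rw [hcon (piv μ), mul_zero] at h1
    simpa [Matrix.mulVec, dotProduct] using h1

/-- The coefficients of the form of Fermat. -/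
def fermat (n d : ℕ) (R : Type*) [CommRing R] : Mon n d → R :=
  fun m => if ∃ i, (m.1 i : ℕ) = d then 1 else 0

theorem T_fermat {n d : ℕ} (R : Type*) [CommRing R] :
    T (fermat n d R) = Matrix.diagonal (fun _ => (d : R)) := by
  ext μ ν
  unfold T
  set k := piv μ with hk
  have hpiv : d - 1 ≤ (μ.1 k : ℕ) := piv_spec μ
  have hs : ∑ j : Fin (n + 1), (if j = k then d else 0) = d := by simp
  rw [Finset.sum_eq_single (mkMon _ hs)]
  · have h1 : fermat n d R (mkMon _ hs) = 1 := by
      unfold fermat
      rw [if_pos ⟨k, by simp⟩]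
    rw [h1, mkMon_apply, if_pos rfl, one_mul, Matrix.diagonal_apply]
    have h2 : Cond (mkMon _ hs) μ ν ↔ μ = ν := by
      constructor
      · intro h
        apply Subtype.ext
        funext j
        apply Fin.ext
        have := h j
        rw [mkMon_apply, ← hk] at this
        omega
      · rintro rfl j
        rw [mkMon_apply, ← hk]
        omega
    by_cases h : μ = ν
    · rw [if_pos (h2.mpr h), if_pos h, mul_one]
    · rw [if_neg (fun hc => h (h2.mp hc)), if_neg h, mul_zero]
  · intro m _ hm
    by_cases hf : ∃ i, (m.1 i : ℕ) = d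
    · obtain ⟨i, hi⟩ := hf
      have h1 : ∀ j, j ≠ i → (m.1 j : ℕ) = 0 := by
        have h2 := m.2
        rw [← Finset.add_sum_erase univ _ (Finset.mem_univ i), hi] at h2
        intro j hj
        have h3 : ∑ x ∈ univ.erase i, (m.1 x : ℕ) = 0 := by omega
        exact Finset.sum_eq_zero_iff.mp h3 j (Finset.mem_erase.mpr ⟨hj, Finset.mem_univ _⟩)
      have hik : i ≠ k := by
        rintro rfl
        apply hm
        apply Subtype.ext
        funext j
        apply Fin.ext
        rw [mkMon_apply]
        split_ifs with hj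
        · subst hj; exact hi
        · exact h1 j hj
      rw [h1 k hik.symm]
      simp
    · simp [fermat, hf]
  · intro h
    exact absurd (Finset.mem_univ _) h

end Pool.Agent.Y722.HS
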