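import Mathlib

/-!
# Forms with given coefficients and their singular points

`Mon n d` is the set of the monomials of degree `d` in `n + 1` variables, and `form c` the form with
coefficients `c`.  There is a polynomial `Delta` in the coefficients, with integer coefficients, such
that the hypersurface `form c = 0` over an algebraically closed field is smooth if `Delta` does not
vanish at `c`, and `Delta` does not vanish at the coefficients of the form of Fermat unless the
characteristic divides `d`.
-/

set_option autoImplicit false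

namespace Pool.Agent.Y722.HS

open Finset

/-- The monomials of degree `d` in the variables `x_0, …, x_n`, given by their exponents. -/
abbrev Mon (n d : ℕ) : Type := {m : Fin (n + 1) → Fin (d + 1) // ∑ i, (m i : ℕ) = d}

/-- The form with the coefficients `c`. -/
noncomputable def form {n d : ℕ} {R : Type*} [CommSemiring R] (c : Mon n d → R) :
    MvPolynomial (Fin (n + 1)) R :=
  ∑ m, MvPolynomial.C (c m) * ∏ i, MvPolynomial.X i ^ (m.1 i : ℕ)

/-- The hypersurface `F = 0` in projective space over an algebraically closed field is smooth. -/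
def IsSmooth {n : ℕ} {K : Type*} [Field K] (F : MvPolynomial (Fin (n + 1)) K) : Prop :=
  ∀ x : Fin (n + 1) → K, x ≠ 0 → MvPolynomial.eval x F = 0 →
    ∃ i, MvPolynomial.eval x (MvPolynomial.pderiv i F) ≠ 0

/-- The monomial with exponents `m`, of degree `d`, at the point `x`. -/
def mev {n d : ℕ} {R : Type*} [CommSemiring R] (x : Fin (n + 1) → R) (m : Mon n d) : R :=
  ∏ i, x i ^ (m.1 i : ℕ)

theorem eval_form {n d : ℕ} {R : Type*} [CommSemiring R] (c : Mon n d → R) (x : Fin (n + 1) → R) :
    MvPolynomial.eval x (form c) = ∑ m, c m * mev x m := by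
  simp [form, mev, map_sum, map_prod]

theorem eval_pderiv {n d : ℕ} {R : Type*} [CommRing R] (c : Mon n d → R) (x : Fin (n + 1) → R)
    (k : Fin (n + 1)) :
    MvPolynomial.eval x (MvPolynomial.pderiv k (form c)) =
      ∑ m, c m * (((m.1 k : ℕ) : R) * x k ^ ((m.1 k : ℕ) - 1) *
        ∏ i ∈ univ.erase k, x i ^ (m.1 i : ℕ)) := by
  unfold form
  rw [map_sum, map_sum]
  refine Finset.sum_congr rfl fun m _ => ?_
  have h1 : MvPolynomial.C (c m) * ∏ i, (MvPolynomial.X i : MvPolynomial (Fin (n + 1)) R) ^ (m.1 i : ℕ)
      = MvPolynomial.monomial (Finsupp.equivFunOnFinite.symm (fun i => (m.1 i : ℕ))) (c m) := by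
    rw [MvPolynomial.monomial_eq]
    congr 1
    rw [Finsupp.prod_fintype _ _ (fun i => by simp)]
    simp
  rw [h1, MvPolynomial.pderiv_monomial, MvPolynomial.eval_monomial]
  rw [Finsupp.prod_fintype _ _ (fun i => by simp)]
  rw [← Finset.mul_prod_erase univ _ (Finset.mem_univ k)]
  have h2 : ∀ i ∈ univ.erase k, x i ^ ((Finsupp.equivFunOnFinite.symm (fun i => (m.1 i : ℕ)) -
      Finsupp.single k 1 : Fin (n + 1) →₀ ℕ) i) = x i ^ (m.1 i : ℕ) := by
    intro i hi
    have : i ≠ k := Finset.ne_of_mem_erase hi
    simp [Finsupp.single_apply, this.symm]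
  rw [Finset.prod_congr rfl h2]
  simp only [Finsupp.coe_tsub, Pi.sub_apply, Finsupp.equivFunOnFinite_symm_apply_apply,
    Finsupp.single_eq_same]
  ring

end Pool.Agent.Y722.HS
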