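import Pool.Agent.Y722.HS.Avg
import Pool.Agent.Y722.HS.Tail

/-!
# The logarithm of the L-function near the edge
-/

set_option autoImplicit false

namespace Pool.Agent.Y722.HS

open Finset

/-- `α p j`, `j < b`, are the eigenvalues of Frobenius at `p` on the primitive part of the middle
cohomology of the hypersurface in `ℙⁿ` with the coefficients `c`, zeros added if necessary:
for all primes `p` one has `|α p j| ≤ p^{(n-1)/2}`, and if the hypersurface is smooth modulo `p`, then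
`#X(𝔽_p) = 1 + p + ⋯ + p^{n-1} + (-1)^{n-1} ∑ α p j`.  (The number of the nonzero vectors over `𝔽_p` on
the cone over `X` is `(p - 1) #X(𝔽_p)`.) -/
structure IsFrob {n d : ℕ} (b : ℕ) (c : Mon n d → ℤ) (α : ℕ → Fin b → ℂ) : Prop where
  bound : ∀ p : ℕ, p.Prime → ∀ j, ‖α p j‖ ≤ (p : ℝ) ^ (((n : ℝ) - 1) / 2)
  count : ∀ (p : ℕ) [Fact p.Prime],
    IsSmooth (MvPolynomial.map (algebraMap (ZMod p) (AlgebraicClosure (ZMod p))) (form (red p c))) →
      (cone (red p c) : ℂ) = ((p : ℂ) ^ n - 1) + (-1) ^ (n - 1) * ((p : ℂ) - 1) * ∑ j, α p j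

/-- The Euler product `∏_p ∏_j (1 - α p j p^{-s})⁻¹`. -/
noncomputable def LP {b : ℕ} (α : ℕ → Fin b → ℂ) (s : ℂ) : ℂ :=
  ∏' p : Nat.Primes, ∏ j, (1 - α p j * ((p : ℕ) : ℂ) ^ (-s))⁻¹

section
variable {n b : ℕ} {α : ℕ → Fin b → ℂ} {ε : ℝ}

/-- The point at the distance `ε` from the edge of absolute convergence. -/
noncomputable def ss (n : ℕ) (ε : ℝ) : ℂ := (((n : ℝ) + 1) / 2 + ε : ℝ)

theorem norm_z (hα : ∀ p : ℕ, p.Prime → ∀ j, ‖α p j‖ ≤ (p : ℝ) ^ (((n : ℝ) - 1) / 2)) (p : ℕ)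
    (hp : p.Prime) (j : Fin b) : ‖α p j * (p : ℂ) ^ (-ss n ε)‖ ≤ (p : ℝ) ^ (-1 - ε) := by
  have hp0 : (0 : ℝ) < p := by exact_mod_cast hp.pos
  have h1 : ‖(p : ℂ) ^ (-ss n ε)‖ = (p : ℝ) ^ (-(((n : ℝ) + 1) / 2 + ε)) := by
    have : ((p : ℝ) : ℂ) = (p : ℂ) := by push_cast; rfl
    rw [← this, Complex.norm_cpow_eq_rpow_re_of_pos hp0]
    congr 1
  rw [norm_mul, h1]
  calc _ ≤ (p : ℝ) ^ (((n : ℝ) - 1) / 2) * (p : ℝ) ^ (-(((n : ℝ) + 1) / 2 + ε)) := by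
        gcongr
        exact hα p hp j
    _ = _ := by
        rw [← Real.rpow_add hp0]
        congr 1
        ring

theorem rpow_le_half (hε : 0 ≤ ε) (p : ℕ) (hp : p.Prime) : (p : ℝ) ^ (-1 - ε) ≤ 1 / 2 := by
  have hp2 : (2 : ℝ) ≤ p := by exact_mod_cast hp.two_le
  calc (p : ℝ) ^ (-1 - ε) ≤ (p : ℝ) ^ (-1 : ℝ) :=
        Real.rpow_le_rpow_of_exponent_le (by linarith) (by linarith)
    _ = 1 / p := by rw [Real.rpow_neg_one, one_div]
    _ ≤ 1 / 2 := by gcongr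

/-- The logarithm of the Euler factor. -/
noncomputable def gl (n : ℕ) (α : ℕ → Fin b → ℂ) (ε : ℝ) (p : ℕ) : ℂ :=
  ∑ j, Complex.log (1 - α p j * (p : ℂ) ^ (-ss n ε))⁻¹

theorem log_near (z : ℂ) (hz : ‖z‖ ≤ 1 / 2) : ‖Complex.log (1 - z)⁻¹ - z‖ ≤ ‖z‖ ^ 2 := by
  have h1 := Complex.norm_log_one_sub_inv_sub_self_le (z := z) (by linarith)
  have h2 : (1 - ‖z‖)⁻¹ ≤ 2 := by
    rw [inv_le_comm₀ (by linarith) (by norm_num)]
    linarith
  calc _ ≤ ‖z‖ ^ 2 * (1 - ‖z‖)⁻¹ / 2 := h1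
    _ ≤ ‖z‖ ^ 2 * 2 / 2 := by gcongr
    _ = _ := by ring

theorem gl_near (hε : 0 ≤ ε)
    (hα : ∀ p : ℕ, p.Prime → ∀ j, ‖α p j‖ ≤ (p : ℝ) ^ (((n : ℝ) - 1) / 2)) (p : ℕ) (hp : p.Prime) :
    ‖gl n α ε p - (∑ j, α p j) * (p : ℂ) ^ (-ss n ε)‖ ≤ b * (1 / (p : ℝ) ^ ((3 : ℝ) / 2)) := by
  have hp1 : (1 : ℝ) ≤ p := by exact_mod_cast hp.one_lt.le
  unfold gl
  rw [Finset.sum_mul, ← Finset.sum_sub_distrib]
  refine (norm_sum_le _ _).trans ?_
  have h1 : ∀ j ∈ (Finset.univ : Finset (Fin b)),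
      ‖Complex.log (1 - α p j * (p : ℂ) ^ (-ss n ε))⁻¹ - α p j * (p : ℂ) ^ (-ss n ε)‖ ≤
        1 / (p : ℝ) ^ ((3 : ℝ) / 2) := by
    intro j _
    have h2 := norm_z (ε := ε) hα p hp j
    have h3 := rpow_le_half hε p hp
    refine (log_near _ (h2.trans h3)).trans ?_
    calc _ ≤ ((p : ℝ) ^ (-1 - ε)) ^ 2 := by gcongr
      _ = (p : ℝ) ^ ((-1 - ε) * 2) := by
          rw [← Real.rpow_natCast, ← Real.rpow_mul (by linarith)]; norm_num
      _ ≤ (p : ℝ) ^ (-((3 : ℝ) / 2)) := Real.rpow_le_rpow_of_exponent_le hp1 (by linarith)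
      _ = _ := by rw [Real.rpow_neg (by linarith), one_div]
  refine (Finset.sum_le_sum h1).trans ?_
  rw [Finset.sum_const, nsmul_eq_mul, Finset.card_univ, Fintype.card_fin]

theorem gl_le (hε : 0 ≤ ε)
    (hα : ∀ p : ℕ, p.Prime → ∀ j, ‖α p j‖ ≤ (p : ℝ) ^ (((n : ℝ) - 1) / 2)) (p : ℕ) (hp : p.Prime) :
    ‖gl n α ε p‖ ≤ 2 * b * (p : ℝ) ^ (-1 - ε) := by
  unfold gl
  refine (norm_sum_le _ _).trans ?_
  have h1 : ∀ j ∈ (Finset.univ : Finset (Fin b)),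
      ‖Complex.log (1 - α p j * (p : ℂ) ^ (-ss n ε))⁻¹‖ ≤ 2 * (p : ℝ) ^ (-1 - ε) := by
    intro j _
    set z := α p j * (p : ℂ) ^ (-ss n ε) with hz
    have h2 : ‖z‖ ≤ (p : ℝ) ^ (-1 - ε) := norm_z (ε := ε) hα p hp j
    have h3 := rpow_le_half hε p hp
    have h4 := log_near z (h2.trans h3)
    have h5 : ‖Complex.log (1 - z)⁻¹‖ ≤ ‖Complex.log (1 - z)⁻¹ - z‖ + ‖z‖ := by
      have := norm_add_le (Complex.log (1 - z)⁻¹ - z) z
      rwa [sub_add_cancel] at this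
    have h6 : ‖z‖ ^ 2 ≤ ‖z‖ := by nlinarith [norm_nonneg z]
    linarith
  refine (Finset.sum_le_sum h1).trans ?_
  rw [Finset.sum_const, nsmul_eq_mul, Finset.card_univ, Fintype.card_fin]
  apply le_of_eq
  ring

theorem summable_primes (hε : 0 < ε) : Summable fun p : Nat.Primes => ((p : ℕ) : ℝ) ^ (-1 - ε) := by
  have h1 : Summable fun k : ℕ => (k : ℝ) ^ (-1 - ε) := by
    rw [Real.summable_nat_rpow]; linarith
  exact h1.comp_injective (fun a b h => Subtype.ext h)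

theorem LP_eq (hε : 0 < ε)
    (hα : ∀ p : ℕ, p.Prime → ∀ j, ‖α p j‖ ≤ (p : ℝ) ^ (((n : ℝ) - 1) / 2)) :
    LP α (ss n ε) = Complex.exp (∑' p : Nat.Primes, gl n α ε p) := by
  have h1 : Summable fun p : Nat.Primes => gl n α ε p := by
    refine Summable.of_norm_bounded (g := fun p : Nat.Primes => 2 * b * ((p : ℕ) : ℝ) ^ (-1 - ε))
      ((summable_primes hε).mul_left _) fun p => gl_le hε.le hα p p.2
  have h2 := h1.hasSum.cexp
  unfold LP
  rw [← h2.tprod_eq]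
  refine tprod_congr fun p => ?_
  simp only [Function.comp, gl, Complex.exp_sum]
  refine Finset.prod_congr rfl fun j _ => ?_
  rw [Complex.exp_log]
  apply inv_ne_zero
  intro h3
  have h4 : ‖α (p : ℕ) j * ((p : ℕ) : ℂ) ^ (-ss n ε)‖ = 1 := by
    rw [← sub_eq_zero.mp h3, norm_one]
  have h5 := norm_z (ε := ε) hα p p.2 j
  have h6 := rpow_le_half hε.le p p.2
  linarith

/-- The L-function is determined by the primes up to `y`, up to a bounded factor. -/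
theorem log_LP (hε : 0 < ε) (hε1 : ε ≤ 1)
    (hα : ∀ p : ℕ, p.Prime → ∀ j, ‖α p j‖ ≤ (p : ℝ) ^ (((n : ℝ) - 1) / 2)) (y : ℕ) (hy : 1 ≤ y) :
    |Real.log ‖LP α (ss n ε)‖ - ∑ p ∈ PR y, ((∑ j, α p j) * (p : ℂ) ^ (-ss n ε)).re| ≤
      b * SS + 2 * b * (16 / (ε * Real.log (y + 1))) := by
  rw [LP_eq hε hα, Complex.norm_exp, Real.log_exp]
  have hg : Summable fun p : Nat.Primes => 2 * b * ((p : ℕ) : ℝ) ^ (-1 - ε) :=
    (summable_primes hε).mul_left _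
  have h1 : Summable fun p : Nat.Primes => gl n α ε p :=
    Summable.of_norm_bounded hg fun p => gl_le hε.le hα p p.2
  set S : Finset Nat.Primes := (PR y).subtype Nat.Prime with hS
  have hsum : ∀ f : ℕ → ℂ, ∑ p ∈ S, f (p : ℕ) = ∑ p ∈ PR y, f p := by
    intro f
    exact Finset.sum_subtype_of_mem f fun p hp => (mem_PR.mp hp).2
  have hSmem : ∀ q : Nat.Primes, q ∈ S ↔ (q : ℕ) ≤ y := by
    intro q
    exact (Finset.mem_subtype (p := Nat.Prime) (s := PR y) (a := q)).trans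
      (mem_PR.trans ⟨fun h => h.1, fun h => ⟨h, q.2⟩⟩)
  have h2 := h1.sum_add_tsum_subtype_compl S
  have h3 : ‖∑' p : {p : Nat.Primes // p ∉ S}, gl n α ε (p : Nat.Primes)‖ ≤
      2 * b * (16 / (ε * Real.log (y + 1))) := by
    have h4 : Summable fun p : {p : Nat.Primes // p ∉ S} =>
        2 * b * (((p : Nat.Primes) : ℕ) : ℝ) ^ (-1 - ε) :=
      hg.comp_injective Subtype.val_injective
    refine (tsum_of_norm_bounded h4.hasSum fun p => gl_le hε.le hα p p.1.2).trans ?_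
    refine h4.tsum_le_of_sum_le fun t => ?_
    rw [← Finset.mul_sum]
    refine mul_le_mul_of_nonneg_left ?_ (by positivity)
    have h5 := tail_le (y + 1) (by omega) ε hε hε1
      (t.image (fun p : {p : Nat.Primes // p ∉ S} => ((p : Nat.Primes) : ℕ))) (by
        intro q hq
        obtain ⟨p, _, rfl⟩ := Finset.mem_image.mp hq
        refine ⟨p.1.2, ?_⟩
        have h6 : ¬ ((p.1 : Nat.Primes) : ℕ) ≤ y := fun h => p.2 ((hSmem p.1).mpr h)
        omega)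
    have h6 : ∑ q ∈ t.image (fun p : {p : Nat.Primes // p ∉ S} => ((p : Nat.Primes) : ℕ)),
        (q : ℝ) ^ (-1 - ε) = ∑ p ∈ t, (((p : Nat.Primes) : ℕ) : ℝ) ^ (-1 - ε) :=
      Finset.sum_image (fun a _ b _ h => Subtype.ext (Subtype.ext h))
    rw [h6] at h5
    push_cast at h5
    exact h5
  have h4 : ‖∑ p ∈ PR y, gl n α ε p - ∑ p ∈ PR y, (∑ j, α p j) * (p : ℂ) ^ (-ss n ε)‖ ≤ b * SS := by
    rw [← Finset.sum_sub_distrib]
    refine (norm_sum_le _ _).trans ?_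
    refine (Finset.sum_le_sum fun p hp => gl_near hε.le hα p (mem_PR.mp hp).2).trans ?_
    rw [← Finset.mul_sum]
    exact mul_le_mul_of_nonneg_left (sum_le_SS _) (by positivity)
  have h5 : (∑' p : Nat.Primes, gl n α ε p).re -
      ∑ p ∈ PR y, ((∑ j, α p j) * (p : ℂ) ^ (-ss n ε)).re =
      ((∑ p ∈ PR y, gl n α ε p - ∑ p ∈ PR y, (∑ j, α p j) * (p : ℂ) ^ (-ss n ε)) +
        ∑' p : {p : Nat.Primes // p ∉ S}, gl n α ε (p : Nat.Primes)).re := by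
    rw [← h2, hsum (fun p => gl n α ε p), Complex.add_re, Complex.add_re, Complex.sub_re,
      Complex.re_sum, Complex.re_sum]
    ring
  rw [h5]
  refine (Complex.abs_re_le_norm _).trans ((norm_add_le _ _).trans (add_le_add h4 h3))

end

end Pool.Agent.Y722.HS
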