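import Pool.Agent.Y722.HS.LSum

/-!
# The L-function near the edge for most hypersurfaces
-/

set_option autoImplicit false

namespace Pool.Agent.Y722.HS

open Finset

theorem sum_alpha {n d b : ℕ} {c : Mon n d → ℤ} {α : ℕ → Fin b → ℂ}
    (h : IsFrob b c α) (hd : 1 ≤ d) (p : ℕ) [Fact p.Prime] (hb : ¬ IsBad p (red p c)) :
    ∑ j, α p j = (((-1) ^ (n - 1) * aa p (red p c) : ℝ) : ℂ) := by
  have h1 := h.count p (isSmooth_of_not_isBad p hd _ hb)
  have hp1 : ((p : ℂ) - 1) ≠ 0 := by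
    have h2 : (p : ℝ) - 1 ≠ 0 := by
      have : (1 : ℝ) < p := by exact_mod_cast (Fact.out : p.Prime).one_lt
      linarith
    exact_mod_cast h2
  have hs : ((-1 : ℂ) ^ (n - 1)) * (-1) ^ (n - 1) = 1 := by
    rw [← mul_pow]; norm_num
  unfold aa
  push_cast
  rw [h1]
  have h3 : (-1 : ℂ) ^ (n - 1) * ((((p : ℂ) ^ n - 1) + (-1) ^ (n - 1) * ((p : ℂ) - 1) * ∑ j, α p j -
      ((p : ℂ) ^ n - 1)) / ((p : ℂ) - 1)) =
      (((-1 : ℂ) ^ (n - 1)) * (-1) ^ (n - 1)) * ∑ j, α p j := by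
    field_simp
    ring
  rw [h3, hs, one_mul]

theorem term_near {n d b : ℕ} {c : Mon n d → ℤ} {α : ℕ → Fin b → ℂ}
    (h : IsFrob b c α) (hd : 1 ≤ d) (p : ℕ) [Fact p.Prime] (ε : ℝ) (hε : 0 ≤ ε) :
    |((∑ j, α p j) * (p : ℂ) ^ (-ss n ε)).re -
      (-1) ^ (n - 1) * ((p : ℝ) ^ (-ε) * nA p (red p c))| ≤ bt b p (red p c) := by
  classical
  have hp := (Fact.out : p.Prime)
  have hp0 : (0 : ℝ) < p := by exact_mod_cast hp.pos
  have hp1 : (1 : ℝ) ≤ p := by exact_mod_cast hp.one_lt.le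
  have hsgn : |(-1 : ℝ) ^ (n - 1)| = 1 := by rw [abs_pow]; simp
  have hpε : (p : ℝ) ^ (-ε) ≤ 1 := Real.rpow_le_one_of_one_le_of_nonpos hp1 (by linarith)
  have hcp : (p : ℂ) ^ (-ss n ε) = (((p : ℝ) ^ (-(((n : ℝ) + 1) / 2 + ε)) : ℝ) : ℂ) := by
    rw [Complex.ofReal_cpow hp0.le]
    simp [ss]
  by_cases hb : IsBad p (red p c)
  · have h1 : bt b p (red p c) = |nA p (red p c)| + b / p := by
      unfold bt bd; rw [if_pos hb, one_mul]
    rw [h1]
    have h2 : |((∑ j, α p j) * (p : ℂ) ^ (-ss n ε)).re| ≤ b / p := by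
      refine (Complex.abs_re_le_norm _).trans ?_
      rw [Finset.sum_mul]
      refine (norm_sum_le _ _).trans ?_
      refine (Finset.sum_le_sum fun j _ => norm_z (ε := ε) h.bound p hp j).trans ?_
      rw [Finset.sum_const, nsmul_eq_mul, Finset.card_univ, Fintype.card_fin, div_eq_mul_inv]
      gcongr
      rw [← Real.rpow_neg_one]
      exact Real.rpow_le_rpow_of_exponent_le hp1 (by linarith)
    have h3 : |(-1) ^ (n - 1) * ((p : ℝ) ^ (-ε) * nA p (red p c))| ≤ |nA p (red p c)| := by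
      rw [abs_mul, abs_mul, hsgn, one_mul, abs_of_nonneg (by positivity : (0 : ℝ) ≤ (p : ℝ) ^ (-ε))]
      calc _ ≤ 1 * |nA p (red p c)| := by gcongr
        _ = _ := one_mul _
    have h4 := abs_sub (((∑ j, α p j) * (p : ℂ) ^ (-ss n ε)).re)
      ((-1) ^ (n - 1) * ((p : ℝ) ^ (-ε) * nA p (red p c)))
    linarith
  · have h1 : bt b p (red p c) = 0 := by
      unfold bt bd; rw [if_neg hb, zero_mul]
    rw [h1, sum_alpha h hd p hb, hcp, ← Complex.ofReal_mul, Complex.ofReal_re]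
    apply le_of_eq
    rw [abs_eq_zero, sub_eq_zero, nA, neg_add, Real.rpow_add hp0, Real.rpow_neg hp0.le]
    field_simp

theorem sum_near {n d b : ℕ} {c : Mon n d → ℤ} {α : ℕ → Fin b → ℂ}
    (h : IsFrob b c α) (hd : 1 ≤ d) (y : ℕ) (ε : ℝ) (hε : 0 ≤ ε) (hε1 : ε ≤ 1) :
    |∑ p ∈ PR y, ((∑ j, α p j) * (p : ℂ) ^ (-ss n ε)).re| ≤ GG b y c := by
  have hsgn : |(-1 : ℝ) ^ (n - 1)| = 1 := by rw [abs_pow]; simp
  have h1 : |∑ p ∈ PR y, ((∑ j, α p j) * (p : ℂ) ^ (-ss n ε)).re -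
      (-1) ^ (n - 1) * Zu y ε c| ≤ ∑ p ∈ PR y, bt b p (red p c) := by
    unfold Zu ZZ
    rw [Finset.mul_sum, ← Finset.sum_sub_distrib]
    refine (Finset.abs_sum_le_sum_abs _ _).trans (Finset.sum_le_sum fun p hp => ?_)
    have := Fact.mk (mem_PR.mp hp).2
    exact term_near h hd p ε hε
  have h2 := Zu_le y c ε hε hε1
  have h3 : |(-1) ^ (n - 1) * Zu y ε c| = |Zu y ε c| := by rw [abs_mul, hsgn, one_mul]
  have h4 := abs_sub_abs_le_abs_sub (∑ p ∈ PR y, ((∑ j, α p j) * (p : ℂ) ^ (-ss n ε)).re)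
    ((-1) ^ (n - 1) * Zu y ε c)
  unfold GG
  linarith

theorem bt_nonneg (b p : ℕ) {n d : ℕ} (c : Mon n d → ZMod p) : 0 ≤ bt b p c :=
  mul_nonneg (bd_nonneg p c) (by positivity)

theorem GG_nonneg (b y : ℕ) {n d : ℕ} (c : Mon n d → ℤ) : 0 ≤ GG b y c := by
  unfold GG
  have h1 : 0 ≤ ∫ u in (0 : ℝ)..1, Yu y u c ^ 2 :=
    intervalIntegral.integral_nonneg zero_le_one fun u _ => sq_nonneg _
  have h2 : 0 ≤ ∑ p ∈ PR y, bt b p (red p c) := Finset.sum_nonneg fun p _ => bt_nonneg b p _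
  positivity

/-- Markov's inequality. -/
theorem markov {ι : Type*} [Fintype ι] [DecidableEq ι] (H : ℕ) (f : (ι → ℤ) → ℝ)
    (hf : ∀ c, 0 ≤ f c) (K δ : ℝ) (hK : EB H f ≤ K) (hK0 : 0 < K) (hδ : 0 < δ) :
    (((box ι H).filter (fun c => K / δ < f c)).card : ℝ) ≤ δ * (box ι H).card := by
  have hB : (0 : ℝ) < (2 * H + 1 : ℝ) ^ Fintype.card ι := by positivity
  have h1 : ∑ c ∈ box ι H, f c ≤ K * (box ι H).card := by
    unfold EB at hK
    rw [div_le_iff₀ hB] at hK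
    rwa [card_box]
  have h2 : (((box ι H).filter (fun c => K / δ < f c)).card : ℝ) * (K / δ) ≤
      ∑ c ∈ box ι H, f c := by
    calc _ ≤ ∑ c ∈ (box ι H).filter (fun c => K / δ < f c), f c := by
          rw [← nsmul_eq_mul]
          exact Finset.card_nsmul_le_sum _ _ _ fun c hc => (Finset.mem_filter.mp hc).2.le
      _ ≤ _ := Finset.sum_le_sum_of_subset_of_nonneg (Finset.filter_subset _ _) fun c _ _ => hf c
  have h3 : (((box ι H).filter (fun c => K / δ < f c)).card : ℝ) * (K / δ) ≤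
      K * (box ι H).card := h2.trans h1
  rw [mul_div_assoc', div_le_iff₀ hδ] at h3
  have h4 : K * (((box ι H).filter (fun c => K / δ < f c)).card : ℝ) ≤
      K * (δ * (box ι H).card) := by linarith
  exact le_of_mul_le_mul_left h4 hK0

theorem exists_y (H : ℕ) (hH : 2 ≤ H) : ∃ y : ℕ, 1 ≤ y ∧ y ^ 4 ≤ H ∧
    Real.log H ≤ 4 * Real.log (y + 1) := by
  refine ⟨Nat.sqrt (Nat.sqrt H), ?_, ?_, ?_⟩
  · rw [Nat.one_le_iff_ne_zero, Ne, Nat.sqrt_eq_zero, Nat.sqrt_eq_zero]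
    omega
  · have h1 := Nat.sqrt_le' (Nat.sqrt H)
    have h2 := Nat.sqrt_le' H
    calc Nat.sqrt (Nat.sqrt H) ^ 4 = (Nat.sqrt (Nat.sqrt H) ^ 2) ^ 2 := by ring
      _ ≤ (Nat.sqrt H) ^ 2 := Nat.pow_le_pow_left h1 2
      _ ≤ H := h2
  · set y := Nat.sqrt (Nat.sqrt H) with hy
    have h1 : Nat.sqrt H < (y + 1) ^ 2 := Nat.lt_succ_sqrt' _
    have h2 : H < (Nat.sqrt H + 1) ^ 2 := Nat.lt_succ_sqrt' _
    have h3 : H ≤ (y + 1) ^ 4 := by
      calc H ≤ (Nat.sqrt H + 1) ^ 2 := h2.le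
        _ ≤ ((y + 1) ^ 2) ^ 2 := Nat.pow_le_pow_left h1 2
        _ = _ := by ring
    have h4 : (H : ℝ) ≤ ((y : ℝ) + 1) ^ 4 := by exact_mod_cast h3
    have h5 : Real.log H ≤ Real.log (((y : ℝ) + 1) ^ 4) :=
      Real.log_le_log (by exact_mod_cast (by omega : 0 < H)) h4
    rw [Real.log_pow] at h5
    exact_mod_cast h5

/-- **Main theorem.**  For all forms of degree `d` with integer coefficients of absolute value at most
`H`, up to a proportion `δ`, the L-function of the primitive middle cohomology is between `e^{-C/δ}`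
and `e^{C/δ}` at all real points at a distance between `1 / log H` and `1` from the edge of absolute
convergence. -/
theorem main (n d b : ℕ) (hn : 1 ≤ n) (hd : 1 ≤ d) : ∃ C : ℝ, 0 < C ∧ ∀ H : ℕ, 2 ≤ H →
    ∀ δ : ℝ, 0 < δ → δ ≤ 1 → ∃ E ⊆ box (Mon n d) H,
      (E.card : ℝ) ≤ δ * (box (Mon n d) H).card ∧ ∀ c ∈ box (Mon n d) H \ E,
      ∀ α : ℕ → Fin b → ℂ, IsFrob b c α → ∀ ε : ℝ, 1 / Real.log H ≤ ε → ε ≤ 1 →
        LP α (ss n ε) ≠ 0 ∧ |Real.log ‖LP α (ss n ε)‖| ≤ C / δ := by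
  have hK3 : 0 < K3 n d b := by
    unfold K3 KK K2 DD
    have := SS_nonneg
    positivity
  refine ⟨b * SS + 128 * b + K3 n d b, by have := SS_nonneg; positivity, ?_⟩
  intro H hH δ hδ0 hδ1
  obtain ⟨y, hy1, hy4, hyl⟩ := exists_y H hH
  have hlogH : 0 < Real.log H := Real.log_pos (by exact_mod_cast (by omega : 1 < H))
  refine ⟨(box (Mon n d) H).filter (fun c => K3 n d b / δ < GG b y c), Finset.filter_subset _ _,
    markov H (fun c => GG b y c) (GG_nonneg b y) _ δ (EB_GG hn hd b H y hy4) hK3 hδ0, ?_⟩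
  intro c hc α hα ε hε hε1
  have hε0 : 0 < ε := lt_of_lt_of_le (by positivity) hε
  have hc2 : GG b y c ≤ K3 n d b / δ := by
    rw [Finset.mem_sdiff, Finset.mem_filter, not_and, not_lt] at hc
    exact hc.2 hc.1
  refine ⟨by rw [LP_eq hε0 hα.bound]; exact Complex.exp_ne_zero _, ?_⟩
  have h1 := log_LP hε0 hε1 hα.bound y hy1
  have h2 := sum_near hα hd y ε hε0.le hε1
  have h3 : 16 / (ε * Real.log (y + 1)) ≤ 64 := by
    have h4 : 1 ≤ ε * Real.log H := by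
      rw [div_le_iff₀ hlogH] at hε
      exact hε
    have h5 : 1 ≤ 4 * (ε * Real.log (y + 1)) := by
      calc (1 : ℝ) ≤ ε * Real.log H := h4
        _ ≤ ε * (4 * Real.log (y + 1)) := by gcongr
        _ = _ := by ring
    rw [div_le_iff₀ (by linarith)]
    linarith
  have h4 : |Real.log ‖LP α (ss n ε)‖| ≤ b * SS + 128 * b + K3 n d b / δ := by
    have h5 := abs_sub_abs_le_abs_sub (Real.log ‖LP α (ss n ε)‖)
      (∑ p ∈ PR y, ((∑ j, α p j) * (p : ℂ) ^ (-ss n ε)).re)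
    have h6 : 2 * (b : ℝ) * (16 / (ε * Real.log (y + 1))) ≤ 2 * b * 64 := by gcongr
    linarith
  refine h4.trans ?_
  rw [add_div]
  have h7 : b * SS + 128 * (b : ℝ) ≤ (b * SS + 128 * b) / δ := by
    rw [le_div_iff₀ hδ0]
    have := SS_nonneg
    have h8 : 0 ≤ b * SS + 128 * (b : ℝ) := by positivity
    nlinarith
  linarith

end Pool.Agent.Y722.HS
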