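import Pool.Agent.Y722.HS.Disc

/-!
# First and second moment of the number of points over a finite field
-/

set_option autoImplicit false

namespace Pool.Agent.Y722.HS

open Finset

/-- The value of the form with coefficients `c` at `x`. -/
def val {n d : ℕ} {R : Type*} [CommSemiring R] (c : Mon n d → R) (x : Fin (n + 1) → R) : R :=
  ∑ m, c m * mev x m

/-- The number of the nonzero vectors with coordinates in `R` at which the form vanishes. -/
noncomputable def cone {n d : ℕ} {R : Type*} [CommRing R] (c : Mon n d → R) : ℕ :=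
  Nat.card {x : Fin (n + 1) → R // x ≠ 0 ∧ MvPolynomial.eval x (form c) = 0}

theorem card_ker {G H : Type*} [AddCommGroup G] [AddCommGroup H] [Finite G] (f : G →+ H)
    (hf : Function.Surjective f) : Nat.card {g // f g = 0} * Nat.card H = Nat.card G := by
  have h1 := AddSubgroup.card_mul_index f.ker
  rw [AddSubgroup.index_ker, AddMonoidHom.range_eq_top.mpr hf] at h1
  have h2 : Nat.card (⊤ : AddSubgroup H) = Nat.card H :=
    Nat.card_congr AddSubgroup.topEquiv.toEquiv
  rw [h2] at h1
  exact h1

theorem prod_single_pow {n : ℕ} {R : Type*} [CommSemiring R] (x : Fin (n + 1) → R) (i : Fin (n + 1))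
    (a : ℕ) : ∏ l, x l ^ (if l = i then a else 0) = x i ^ a := by
  rw [Finset.prod_eq_single i]
  · simp
  · intro b _ hb
    simp [hb]
  · intro h
    exact absurd (Finset.mem_univ _) h

/-- The monomial `x_i x_k^{d-1}`. -/
def mm {n d : ℕ} (hd : 1 ≤ d) (i k : Fin (n + 1)) : Mon n d :=
  mkMon (fun l => (if l = i then 1 else 0) + if l = k then d - 1 else 0) (by
    rw [Finset.sum_add_distrib]
    simp
    omega)

theorem mev_mm {n d : ℕ} {R : Type*} [CommSemiring R] (hd : 1 ≤ d) (i k : Fin (n + 1))
    (x : Fin (n + 1) → R) : mev x (mm hd i k : Mon n d) = x i * x k ^ (d - 1) := by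
  unfold mev mm
  simp only [mkMon_apply, pow_add, Finset.prod_mul_distrib, prod_single_pow, pow_one]

theorem val_add {n d : ℕ} {R : Type*} [CommRing R] (a b : Mon n d → R) (x : Fin (n + 1) → R) :
    val (a + b) x = val a x + val b x := by
  simp [val, add_mul, Finset.sum_add_distrib]

theorem val_smul {n d : ℕ} {R : Type*} [CommRing R] (t : R) (b : Mon n d → R)
    (x : Fin (n + 1) → R) : val (t • b) x = t * val b x := by
  simp [val, Finset.mul_sum, mul_assoc]

theorem val_single {n d : ℕ} {R : Type*} [CommRing R] (m : Mon n d) (t : R)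
    (x : Fin (n + 1) → R) : val (Pi.single m t) x = t * mev x m := by
  unfold val
  rw [Finset.sum_eq_single m]
  · simp
  · intro b _ hb
    simp [hb]
  · intro h
    exact absurd (Finset.mem_univ _) h

section
variable {n d p : ℕ} [Fact p.Prime]

theorem exists_val_ne (hd : 1 ≤ d) (x : Fin (n + 1) → ZMod p) (hx : x ≠ 0) (t : ZMod p) :
    ∃ c : Mon n d → ZMod p, val c x = t := by
  obtain ⟨k, hk⟩ : ∃ i, x i ≠ 0 := Function.ne_iff.mp hx
  refine ⟨(t / (x k * x k ^ (d - 1))) • Pi.single (mm hd k k) 1, ?_⟩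
  rw [val_smul, val_single, mev_mm, one_mul]
  have : x k * x k ^ (d - 1) ≠ 0 := mul_ne_zero hk (pow_ne_zero _ hk)
  field_simp

theorem exists_val_pair (hd : 1 ≤ d) (x y : Fin (n + 1) → ZMod p) (hx : x ≠ 0)
    (i j : Fin (n + 1)) (hij : x i * y j ≠ x j * y i) (t : ZMod p) :
    ∃ c : Mon n d → ZMod p, val c x = t ∧ val c y = 0 := by
  obtain ⟨k, hk⟩ : ∃ i, x i ≠ 0 := Function.ne_iff.mp hx
  have h1 : (x i * y j - x j * y i) * x k ^ (d - 1) ≠ 0 :=
    mul_ne_zero (sub_ne_zero.mpr hij) (pow_ne_zero _ hk)
  refine ⟨(t / ((x i * y j - x j * y i) * x k ^ (d - 1))) •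
    (Pi.single (mm hd i k) (y j) + (-1 : ZMod p) • Pi.single (mm hd j k) (y i)), ?_, ?_⟩
  · rw [val_smul, val_add, val_smul, val_single, val_single, mev_mm, mev_mm]
    have : y j * (x i * x k ^ (d - 1)) + -1 * (y i * (x j * x k ^ (d - 1))) =
        (x i * y j - x j * y i) * x k ^ (d - 1) := by ring
    rw [this]
    field_simp
  · rw [val_smul, val_add, val_smul, val_single, val_single, mev_mm, mev_mm]
    ring

theorem card_one (hd : 1 ≤ d) (x : Fin (n + 1) → ZMod p) (hx : x ≠ 0) :
    Nat.card {c : Mon n d → ZMod p // val c x = 0} * p = p ^ Fintype.card (Mon n d) := by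
  set f : (Mon n d → ZMod p) →+ ZMod p :=
    { toFun := fun c => val c x
      map_zero' := by simp [val]
      map_add' := fun a b => val_add a b x } with hf
  have h1 := card_ker f (fun t => exists_val_ne hd x hx t)
  simp only [Nat.card_zmod, Nat.card_eq_fintype_card (α := Mon n d → ZMod p), Fintype.card_fun,
    ZMod.card] at h1
  exact h1

theorem card_two (hd : 1 ≤ d) (x y : Fin (n + 1) → ZMod p) (hx : x ≠ 0) (hy : y ≠ 0)
    (i j : Fin (n + 1)) (hij : x i * y j ≠ x j * y i) :
    Nat.card {c : Mon n d → ZMod p // val c x = 0 ∧ val c y = 0} * (p * p) =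
      p ^ Fintype.card (Mon n d) := by
  set f : (Mon n d → ZMod p) →+ ZMod p × ZMod p :=
    { toFun := fun c => (val c x, val c y)
      map_zero' := by simp [val]
      map_add' := fun a b => by simp [val_add] } with hf
  have hsurj : Function.Surjective f := by
    rintro ⟨s, t⟩
    obtain ⟨c, hc1, hc2⟩ := exists_val_pair hd x y hx i j hij s
    obtain ⟨c', hc1', hc2'⟩ := exists_val_pair hd y x hy i j
      (fun h => hij (by rw [mul_comm (x i), mul_comm (x j)]; exact h.symm)) t
    refine ⟨c + c', ?_⟩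
    change (val (c + c') x, val (c + c') y) = (s, t)
    rw [val_add, val_add, hc1, hc2, hc1', hc2', add_zero, zero_add]
  have h1 := card_ker f hsurj
  have h2 : Nat.card {g // f g = 0} =
      Nat.card {c : Mon n d → ZMod p // val c x = 0 ∧ val c y = 0} := by
    refine Nat.card_congr (Equiv.subtypeEquivRight fun c => ?_)
    change (val c x, val c y) = (0, 0) ↔ _
    rw [Prod.mk.injEq]
  rw [h2, Nat.card_prod] at h1
  simp only [Nat.card_zmod, Nat.card_eq_fintype_card (α := Mon n d → ZMod p), Fintype.card_fun,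
    ZMod.card] at h1
  exact h1

end

end Pool.Agent.Y722.HS
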