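import Pool.Agent.Y722.HS.Mom

/-!
# First and second moment of the number of points over a finite field: conclusion
-/

set_option autoImplicit false

namespace Pool.Agent.Y722.HS

open Finset

section
variable {n d p : ℕ} [Fact p.Prime]

/-- The nonzero vectors. -/
noncomputable def XX (n p : ℕ) [Fact p.Prime] : Finset (Fin (n + 1) → ZMod p) :=
  by classical exact Finset.univ.filter (fun x => x ≠ 0)

theorem mem_XX {x : Fin (n + 1) → ZMod p} : x ∈ XX n p ↔ x ≠ 0 := by simp [XX]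

theorem card_XX : ((XX n p).card : ℝ) = (p : ℝ) ^ (n + 1) - 1 := by
  classical
  have h1 : XX n p = Finset.univ.erase 0 := by
    ext x; simp [XX]
  rw [h1, Finset.card_erase_of_mem (Finset.mem_univ _), Finset.card_univ, Fintype.card_fun,
    ZMod.card, Fintype.card_fin, Nat.cast_sub (Nat.one_le_pow _ _ (Fact.out : p.Prime).pos)]
  push_cast
  rfl

theorem cone_eq (c : Mon n d → ZMod p) :
    (cone c : ℝ) = ∑ x ∈ XX n p, if val c x = 0 then (1 : ℝ) else 0 := by
  classical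
  unfold cone
  rw [Nat.card_eq_fintype_card, Fintype.card_subtype, ← Finset.sum_filter, Finset.sum_const,
    nsmul_eq_mul, mul_one]
  congr 2
  ext x
  rw [Finset.mem_filter, Finset.mem_filter, mem_XX, eval_form]
  simp only [Finset.mem_univ, true_and, val]

theorem card_prop (x : Fin (n + 1) → ZMod p) (hx : x ≠ 0) :
    ((XX n p).filter (fun y => ∀ i j, x i * y j = x j * y i)).card ≤ p := by
  classical
  obtain ⟨k, hk⟩ : ∃ i, x i ≠ 0 := Function.ne_iff.mp hx
  have h1 : ((XX n p).filter (fun y => ∀ i j, x i * y j = x j * y i)).card ≤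
      (Finset.univ : Finset (ZMod p)).card := by
    refine Finset.card_le_card_of_injOn (fun y => y k) (fun _ _ => Finset.mem_univ _) ?_
    intro y hy z hz hyz
    have h2 := (Finset.mem_filter.mp hy).2
    have h3 := (Finset.mem_filter.mp hz).2
    funext j
    have h4 := h2 k j
    have h5 := h3 k j
    simp only at hyz
    rw [hyz, ← h5] at h4
    exact mul_left_cancel₀ hk h4
  simpa [ZMod.card] using h1

theorem cnt_one (hd : 1 ≤ d) (x : Fin (n + 1) → ZMod p) (hx : x ≠ 0) :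
    ∑ c : Mon n d → ZMod p, (if val c x = 0 then (1 : ℝ) else 0) =
      (p : ℝ) ^ Fintype.card (Mon n d) / p := by
  classical
  have h1 := card_one (n := n) (d := d) (p := p) hd x hx
  rw [Nat.card_eq_fintype_card, Fintype.card_subtype] at h1
  rw [← Finset.sum_filter, Finset.sum_const, nsmul_eq_mul, mul_one]
  have hp0 : (0 : ℝ) < p := by exact_mod_cast (Fact.out : p.Prime).pos
  rw [eq_div_iff hp0.ne']
  exact_mod_cast h1

theorem cnt_two (hd : 1 ≤ d) (x y : Fin (n + 1) → ZMod p) (hx : x ≠ 0) (hy : y ≠ 0)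
    (h : ¬ ∀ i j, x i * y j = x j * y i) :
    ∑ c : Mon n d → ZMod p, ((if val c x = 0 then (1 : ℝ) else 0) *
      (if val c y = 0 then (1 : ℝ) else 0)) = (p : ℝ) ^ Fintype.card (Mon n d) / (p * p) := by
  classical
  push Not at h
  obtain ⟨i, j, hij⟩ := h
  have h1 := card_two (n := n) (d := d) (p := p) hd x y hx hy i j hij
  rw [Nat.card_eq_fintype_card, Fintype.card_subtype] at h1
  have h2 : ∀ c : Mon n d → ZMod p, ((if val c x = 0 then (1 : ℝ) else 0) *
      (if val c y = 0 then (1 : ℝ) else 0)) = if (val c x = 0 ∧ val c y = 0) then (1 : ℝ) else 0 := by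
    intro c
    by_cases h3 : val c x = 0 <;> by_cases h4 : val c y = 0 <;> simp [h3, h4]
  rw [Finset.sum_congr rfl fun c _ => h2 c, ← Finset.sum_filter, Finset.sum_const, nsmul_eq_mul,
    mul_one]
  have hp0 : (0 : ℝ) < p := by exact_mod_cast (Fact.out : p.Prime).pos
  rw [eq_div_iff (by positivity)]
  exact_mod_cast h1

/-- The first moment of the number of the points on the cone. -/
theorem sum_cone (hd : 1 ≤ d) : ∑ c : Mon n d → ZMod p, (cone c : ℝ) =
    ((p : ℝ) ^ (n + 1) - 1) / p * (p : ℝ) ^ Fintype.card (Mon n d) := by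
  simp only [cone_eq]
  rw [Finset.sum_comm, Finset.sum_congr rfl fun x hx => cnt_one hd x (mem_XX.mp hx),
    Finset.sum_const, nsmul_eq_mul, card_XX]
  ring

/-- The second moment of the number of the points on the cone. -/
theorem sum_cone_sq (hd : 1 ≤ d) : ∑ c : Mon n d → ZMod p, (cone c : ℝ) ^ 2 ≤
    (((p : ℝ) ^ (n + 1) - 1) + (((p : ℝ) ^ (n + 1) - 1) / p) ^ 2) *
      (p : ℝ) ^ Fintype.card (Mon n d) := by
  classical
  have hp0 : (0 : ℝ) < p := by exact_mod_cast (Fact.out : p.Prime).pos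
  have hX : (0 : ℝ) ≤ (p : ℝ) ^ (n + 1) - 1 := by rw [← card_XX]; positivity
  have h1 : ∀ c : Mon n d → ZMod p, (cone c : ℝ) ^ 2 = ∑ x ∈ XX n p, ∑ y ∈ XX n p,
      ((if val c x = 0 then (1 : ℝ) else 0) * (if val c y = 0 then (1 : ℝ) else 0)) := by
    intro c
    rw [cone_eq, sq, Finset.sum_mul_sum]
  rw [Finset.sum_congr rfl fun c _ => h1 c, Finset.sum_comm]
  have h2 : ∀ x ∈ XX n p, ∑ c : Mon n d → ZMod p, ∑ y ∈ XX n p,
      ((if val c x = 0 then (1 : ℝ) else 0) * (if val c y = 0 then (1 : ℝ) else 0)) ≤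
      (p : ℝ) ^ Fintype.card (Mon n d) +
        ((p : ℝ) ^ (n + 1) - 1) * ((p : ℝ) ^ Fintype.card (Mon n d) / (p * p)) := by
    intro x hx
    rw [Finset.sum_comm, ← Finset.sum_filter_add_sum_filter_not (XX n p)
      (fun y => ∀ i j, x i * y j = x j * y i)]
    refine add_le_add ?_ ?_
    · have h3 : ∀ y ∈ (XX n p).filter (fun y => ∀ i j, x i * y j = x j * y i),
          ∑ c : Mon n d → ZMod p, ((if val c x = 0 then (1 : ℝ) else 0) *
            (if val c y = 0 then (1 : ℝ) else 0)) ≤ (p : ℝ) ^ Fintype.card (Mon n d) / p := by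
        intro y _
        rw [← cnt_one hd x (mem_XX.mp hx)]
        refine Finset.sum_le_sum fun c _ => ?_
        split_ifs <;> norm_num
      refine (Finset.sum_le_sum h3).trans ?_
      rw [Finset.sum_const, nsmul_eq_mul]
      have h4 : (((XX n p).filter (fun y => ∀ i j, x i * y j = x j * y i)).card : ℝ) ≤ p := by
        exact_mod_cast card_prop x (mem_XX.mp hx)
      calc _ ≤ (p : ℝ) * ((p : ℝ) ^ Fintype.card (Mon n d) / p) := by gcongr
        _ = _ := by field_simp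
    · have h3 : ∀ y ∈ (XX n p).filter (fun y => ¬ ∀ i j, x i * y j = x j * y i),
          ∑ c : Mon n d → ZMod p, ((if val c x = 0 then (1 : ℝ) else 0) *
            (if val c y = 0 then (1 : ℝ) else 0)) = (p : ℝ) ^ Fintype.card (Mon n d) / (p * p) := by
        intro y hy
        rw [Finset.mem_filter] at hy
        exact cnt_two hd x y (mem_XX.mp hx) (mem_XX.mp hy.1) hy.2
      rw [Finset.sum_congr rfl h3, Finset.sum_const, nsmul_eq_mul, ← card_XX]
      gcongr
      exact Finset.filter_subset _ _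
  refine (Finset.sum_le_sum h2).trans ?_
  rw [Finset.sum_const, nsmul_eq_mul, card_XX]
  apply le_of_eq
  field_simp

/-- `#X(𝔽_p) - (1 + p + ⋯ + p^{n-1})` for the hypersurface `X` with coefficients `c`. -/
noncomputable def aa (p : ℕ) {n d : ℕ} (c : Mon n d → ZMod p) : ℝ :=
  ((cone c : ℝ) - ((p : ℝ) ^ n - 1)) / ((p : ℝ) - 1)

theorem sum_aa (hd : 1 ≤ d) : ∑ c : Mon n d → ZMod p, aa p c =
    (1 / p) * (p : ℝ) ^ Fintype.card (Mon n d) := by
  have hp0 : (0 : ℝ) < p := by exact_mod_cast (Fact.out : p.Prime).pos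
  have hp1 : (0 : ℝ) < (p : ℝ) - 1 := by
    have : (1 : ℝ) < p := by exact_mod_cast (Fact.out : p.Prime).one_lt
    linarith
  unfold aa
  rw [← Finset.sum_div, Finset.sum_sub_distrib, sum_cone hd, Finset.sum_const, nsmul_eq_mul,
    Finset.card_univ, Fintype.card_fun, ZMod.card]
  push_cast
  field_simp
  ring

theorem sum_aa_sq (hn : 1 ≤ n) (hd : 1 ≤ d) : ∑ c : Mon n d → ZMod p, aa p c ^ 2 ≤
    5 * (p : ℝ) ^ (n - 1) * (p : ℝ) ^ Fintype.card (Mon n d) := by
  obtain ⟨k, rfl⟩ : ∃ k, n = k + 1 := ⟨n - 1, by omega⟩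
  have hp2 : (2 : ℝ) ≤ p := by exact_mod_cast (Fact.out : p.Prime).two_le
  have hp0 : (0 : ℝ) < p := by linarith
  have hp1 : (0 : ℝ) < (p : ℝ) - 1 := by linarith
  set M := (p : ℝ) ^ Fintype.card (Mon (k + 1) d) with hM
  have hM0 : 0 < M := by positivity
  set μ : ℝ := ((p : ℝ) ^ (k + 1 + 1) - 1) / p with hμ
  have h1 : ∀ c : Mon (k + 1) d → ZMod p, aa p c ^ 2 =
      ((cone c : ℝ) ^ 2 - 2 * ((p : ℝ) ^ (k + 1) - 1) * cone c + ((p : ℝ) ^ (k + 1) - 1) ^ 2) /
        ((p : ℝ) - 1) ^ 2 := by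
    intro c; unfold aa; rw [div_pow]; ring
  rw [Finset.sum_congr rfl fun c _ => h1 c, ← Finset.sum_div, Finset.sum_add_distrib,
    Finset.sum_sub_distrib, ← Finset.mul_sum, sum_cone hd, Finset.sum_const, nsmul_eq_mul,
    Finset.card_univ, Fintype.card_fun, ZMod.card, Nat.cast_pow, ← hM, ← hμ,
    div_le_iff₀ (by positivity)]
  have h2 := sum_cone_sq (n := k + 1) (d := d) (p := p) hd
  rw [← hM, ← hμ] at h2
  have h3 : μ - ((p : ℝ) ^ (k + 1) - 1) = ((p : ℝ) - 1) / p := by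
    rw [hμ]; field_simp; ring
  have h4 : ((p : ℝ) - 1) / p ≤ 1 := by rw [div_le_one hp0]; linarith
  have h5 : 0 ≤ ((p : ℝ) - 1) / p := by positivity
  have h6 : (μ - ((p : ℝ) ^ (k + 1) - 1)) ^ 2 ≤ 1 := by rw [h3]; nlinarith
  have h7 : (p : ℝ) ^ (k + 1 + 1) ≤ 5 * (p : ℝ) ^ (k + 1 - 1) * ((p : ℝ) - 1) ^ 2 := by
    rw [Nat.add_sub_cancel, pow_succ, pow_succ]
    have h8 : (p : ℝ) * p ≤ 4 * ((p : ℝ) - 1) ^ 2 := by nlinarith
    have h9 : (0 : ℝ) < (p : ℝ) ^ k := by positivity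
    nlinarith
  calc _ ≤ ((((p : ℝ) ^ (k + 1 + 1) - 1) + μ ^ 2) * M - 2 * ((p : ℝ) ^ (k + 1) - 1) * (μ * M)) +
        M * ((p : ℝ) ^ (k + 1) - 1) ^ 2 := by linarith
    _ = (((p : ℝ) ^ (k + 1 + 1) - 1) + (μ - ((p : ℝ) ^ (k + 1) - 1)) ^ 2) * M := by ring
    _ ≤ ((p : ℝ) ^ (k + 1 + 1)) * M := by
      apply mul_le_mul_of_nonneg_right _ hM0.le
      linarith
    _ ≤ _ := by
      have := mul_le_mul_of_nonneg_right h7 hM0.le
      linarith

end

end Pool.Agent.Y722.HS
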