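import Pool.Agent.Y722.HS.Box
import Pool.Agent.Y722.HS.Mom2
import Pool.Agent.Y722.HS.Bad

/-!
# Second moment of a sum over primes, over the box
-/

set_option autoImplicit false

namespace Pool.Agent.Y722.HS

open Finset

section average
variable {ι : Type*} [Fintype ι] [DecidableEq ι]

theorem EB_add (H : ℕ) (f g : (ι → ℤ) → ℝ) : EB H (fun c => f c + g c) = EB H f + EB H g := by
  simp [EB, Finset.sum_add_distrib, add_div]

theorem EB_mul (H : ℕ) (t : ℝ) (f : (ι → ℤ) → ℝ) : EB H (fun c => t * f c) = t * EB H f := by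
  simp [EB, ← Finset.mul_sum, mul_div_assoc]

theorem EB_sum {κ : Type*} (s : Finset κ) (H : ℕ) (f : κ → (ι → ℤ) → ℝ) :
    EB H (fun c => ∑ k ∈ s, f k c) = ∑ k ∈ s, EB H (f k) := by
  simp only [EB]
  rw [Finset.sum_comm, Finset.sum_div]

theorem EB_mono (H : ℕ) (f g : (ι → ℤ) → ℝ) (h : ∀ c, f c ≤ g c) : EB H f ≤ EB H g := by
  unfold EB
  gcongr
  exact h _

theorem card_box (H : ℕ) : ((box ι H).card : ℝ) = (2 * H + 1 : ℝ) ^ Fintype.card ι := by
  have h1 : (IH H).card = 2 * H + 1 := by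
    unfold IH
    rw [Int.card_Icc]
    omega
  unfold box
  rw [Fintype.card_piFinset, Finset.prod_const, Finset.card_univ, h1]
  push_cast
  rfl

theorem EB_const (H : ℕ) (t : ℝ) : EB H (fun _ : ι → ℤ => t) = t := by
  unfold EB
  rw [Finset.sum_const, nsmul_eq_mul, card_box]
  have : (0 : ℝ) < (2 * H + 1 : ℝ) ^ Fintype.card ι := by positivity
  field_simp

theorem EM_mono (p : ℕ) [NeZero p] (f g : (ι → ZMod p) → ℝ) (h : ∀ c, f c ≤ g c) :
    EM p f ≤ EM p g := by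
  unfold EM
  gcongr
  exact h _

theorem EM_const (p : ℕ) [NeZero p] (t : ℝ) : EM p (fun _ : ι → ZMod p => t) = t := by
  have hp0 : (0 : ℝ) < p := by exact_mod_cast Nat.pos_of_ne_zero (NeZero.ne p)
  unfold EM
  rw [Finset.sum_const, nsmul_eq_mul, Finset.card_univ, Fintype.card_fun, ZMod.card]
  push_cast
  field_simp

end average

/-- `(#X(𝔽_p) - (1 + p + ⋯ + p^{n-1})) / p^{(n+1)/2}`. -/
noncomputable def nA (p : ℕ) {n d : ℕ} (c : Mon n d → ZMod p) : ℝ :=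
  aa p c / (p : ℝ) ^ (((n : ℝ) + 1) / 2)

section
variable {n d p : ℕ} [hpF : Fact p.Prime]

theorem p_pos : (0 : ℝ) < p := by exact_mod_cast (Fact.out : p.Prime).pos

theorem nA_sq (c : Mon n d → ZMod p) : nA p c ^ 2 = aa p c ^ 2 / (p : ℝ) ^ (n + 1) := by
  unfold nA
  rw [div_pow, ← Real.rpow_natCast ((p : ℝ) ^ (((n : ℝ) + 1) / 2)) 2, ← Real.rpow_mul (p_pos).le]
  congr 1
  rw [← Real.rpow_natCast]
  congr 1
  push_cast
  ring

theorem EM_nA_sq (hn : 1 ≤ n) (hd : 1 ≤ d) :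
    EM p (fun c : Mon n d → ZMod p => nA p c ^ 2) ≤ 5 / (p : ℝ) ^ 2 := by
  have hp := p_pos (p := p)
  simp only [EM, nA_sq]
  rw [← Finset.sum_div]
  have h1 := sum_aa_sq (n := n) (d := d) (p := p) hn hd
  rw [div_div, div_le_div_iff₀ (by positivity) (by positivity)]
  obtain ⟨k, rfl⟩ : ∃ k, n = k + 1 := ⟨n - 1, by omega⟩
  rw [Nat.add_sub_cancel] at h1
  calc _ ≤ (5 * (p : ℝ) ^ k * (p : ℝ) ^ Fintype.card (Mon (k + 1) d)) * (p : ℝ) ^ 2 := by gcongr
    _ = _ := by ring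

theorem EM_nA (hn : 1 ≤ n) (hd : 1 ≤ d) :
    |EM p (fun c : Mon n d → ZMod p => nA p c)| ≤ 1 / (p : ℝ) ^ 2 := by
  have hp := p_pos (p := p)
  have hp1 : (1 : ℝ) ≤ p := by exact_mod_cast (Fact.out : p.Prime).one_lt.le
  simp only [EM, nA]
  rw [← Finset.sum_div, sum_aa hd]
  have h1 : (p : ℝ) ≤ (p : ℝ) ^ (((n : ℝ) + 1) / 2) := by
    conv_lhs => rw [← Real.rpow_one (p : ℝ)]
    apply Real.rpow_le_rpow_of_exponent_le hp1
    have : (1 : ℝ) ≤ n := by exact_mod_cast hn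
    linarith
  have h2 : 0 < (p : ℝ) ^ (((n : ℝ) + 1) / 2) := by positivity
  rw [abs_of_nonneg (by positivity)]
  have h3 : 1 / (p : ℝ) * (p : ℝ) ^ Fintype.card (Mon n d) / (p : ℝ) ^ (((n : ℝ) + 1) / 2) /
      (p : ℝ) ^ Fintype.card (Mon n d) = 1 / (p * (p : ℝ) ^ (((n : ℝ) + 1) / 2)) := by
    field_simp
  rw [h3]
  apply one_div_le_one_div_of_le (by positivity)
  rw [sq]
  gcongr

theorem EM_abs_nA (hn : 1 ≤ n) (hd : 1 ≤ d) :
    EM p (fun c : Mon n d → ZMod p => |nA p c|) ≤ 3 / (p : ℝ) := by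
  have hp := p_pos (p := p)
  have h1 : EM p (fun c : Mon n d → ZMod p => |nA p c|) ≤
      EM p (fun c : Mon n d → ZMod p => (p / 2) * nA p c ^ 2 + (1 / (2 * p))) := by
    apply EM_mono
    intro c
    have h2 : 0 ≤ ((p : ℝ) * |nA p c| - 1) ^ 2 := sq_nonneg _
    have h3 : ((p : ℝ) * |nA p c| - 1) ^ 2 = p ^ 2 * nA p c ^ 2 - 2 * p * |nA p c| + 1 := by
      rw [sub_sq, mul_pow, sq_abs]; ring
    rw [h3] at h2
    have h4 : (p : ℝ) / 2 * nA p c ^ 2 + 1 / (2 * p) = (p ^ 2 * nA p c ^ 2 + 1) / (2 * p) := by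
      field_simp
    rw [h4, le_div_iff₀ (by positivity)]
    linarith
  refine h1.trans ?_
  have h5 : EM p (fun c : Mon n d → ZMod p => (p / 2) * nA p c ^ 2 + (1 / (2 * p))) =
      (p / 2) * EM p (fun c : Mon n d → ZMod p => nA p c ^ 2) + 1 / (2 * p) := by
    have h6 := EM_const (ι := Mon n d) p (1 / (2 * (p : ℝ)))
    unfold EM at h6 ⊢
    rw [Finset.sum_add_distrib, add_div, h6, ← Finset.mul_sum, mul_div_assoc]
  rw [h5]
  have h7 := EM_nA_sq (p := p) hn hd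
  calc _ ≤ (p : ℝ) / 2 * (5 / (p : ℝ) ^ 2) + 1 / (2 * p) := by gcongr
    _ = 3 / p := by field_simp; norm_num

end

/-- The number of the coefficients. -/
noncomputable abbrev MM (n d : ℕ) : ℕ := Fintype.card (Mon n d)

theorem EB_nA_sq {n d : ℕ} (hn : 1 ≤ n) (hd : 1 ≤ d) (H p : ℕ) [Fact p.Prime]
    (hp : p ≤ 2 * H + 1) :
    EB H (fun c : Mon n d → ℤ => nA p (red p c) ^ 2) ≤ 2 ^ MM n d * (5 / (p : ℝ) ^ 2) := by
  refine (EB_le H p hp (fun c => nA p c ^ 2) (fun c => sq_nonneg _)).trans ?_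
  exact mul_le_mul_of_nonneg_left (EM_nA_sq hn hd) (by positivity)

theorem EB_nA_mul {n d : ℕ} (hn : 1 ≤ n) (hd : 1 ≤ d) (H p q : ℕ) [hp : Fact p.Prime]
    [hq : Fact q.Prime] (hpq : p ≠ q) (hH : p * q ≤ 2 * H + 1) :
    |EB H (fun c : Mon n d → ℤ => nA p (red p c) * nA q (red q c))| ≤
      1 / (p : ℝ) ^ 2 * (1 / (q : ℝ) ^ 2) + 2 ^ MM n d * 9 / (2 * H + 1) := by
  have hp0 := p_pos (p := p)
  have hq0 := p_pos (p := q)
  have h1 := EB_two (ι := Mon n d) H p q ((Nat.coprime_primes hp.out hq.out).mpr hpq) hH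
    (fun c => nA p c) (fun c => nA q c)
  have h2 : |EM p (fun c : Mon n d → ZMod p => nA p c) * EM q (fun c : Mon n d → ZMod q => nA q c)| ≤
      1 / (p : ℝ) ^ 2 * (1 / (q : ℝ) ^ 2) := by
    rw [abs_mul]
    exact mul_le_mul (EM_nA hn hd) (EM_nA hn hd) (abs_nonneg _) (by positivity)
  have h3 : EM p (fun c : Mon n d → ZMod p => |nA p c|) *
      EM q (fun c : Mon n d → ZMod q => |nA q c|) ≤ 3 / (p : ℝ) * (3 / (q : ℝ)) := by
    refine mul_le_mul (EM_abs_nA hn hd) (EM_abs_nA hn hd) ?_ (by positivity)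
    unfold EM
    positivity
  have h4 : 2 ^ Fintype.card (Mon n d) * ((p : ℝ) * q / (2 * H + 1)) *
      (EM p (fun c : Mon n d → ZMod p => |nA p c|) *
        EM q (fun c : Mon n d → ZMod q => |nA q c|)) ≤ 2 ^ MM n d * 9 / (2 * H + 1) := by
    calc _ ≤ 2 ^ Fintype.card (Mon n d) * ((p : ℝ) * q / (2 * H + 1)) *
          (3 / (p : ℝ) * (3 / (q : ℝ))) := by gcongr
      _ = _ := by field_simp; norm_num
  have h5 := abs_sub_abs_le_abs_sub
    (EB H (fun c : Mon n d → ℤ => nA p (red p c) * nA q (red q c)))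
    (EM p (fun c : Mon n d → ZMod p => nA p c) * EM q (fun c : Mon n d → ZMod q => nA q c))
  linarith

end Pool.Agent.Y722.HS
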