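import Pool.Agent.Y722.HS.Sec

/-!
# Second moment of a sum over primes, over the box: conclusion
-/

set_option autoImplicit false

namespace Pool.Agent.Y722.HS

open Finset

/-- The primes up to `y`. -/
def PR (y : ℕ) : Finset ℕ := (Finset.range (y + 1)).filter Nat.Prime

theorem mem_PR {y p : ℕ} : p ∈ PR y ↔ p ≤ y ∧ p.Prime := by
  simp [PR]

/-- The sum of `n^{-3/2}`. -/
noncomputable def SS : ℝ := ∑' k : ℕ, 1 / (k : ℝ) ^ ((3 : ℝ) / 2)

theorem summable_SS : Summable fun k : ℕ => 1 / (k : ℝ) ^ ((3 : ℝ) / 2) :=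
  Real.summable_one_div_nat_rpow.mpr (by norm_num)

theorem SS_nonneg : 0 ≤ SS := tsum_nonneg fun _ => by positivity

theorem sum_le_SS (s : Finset ℕ) : ∑ p ∈ s, 1 / (p : ℝ) ^ ((3 : ℝ) / 2) ≤ SS :=
  summable_SS.sum_le_tsum s fun _ _ => by positivity

/-- The sum over the primes up to `y` with weights `w`. -/
noncomputable def ZZ (y : ℕ) (w : ℕ → ℝ) {n d : ℕ} (c : Mon n d → ℤ) : ℝ :=
  ∑ p ∈ PR y, w p * nA p (red p c)

/-- The constant of the second moment. -/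
noncomputable def KK (n d : ℕ) : ℝ := 80 * 2 ^ MM n d * SS + 16 * SS ^ 2 + 72 * 2 ^ MM n d

theorem sum_weights (y : ℕ) (w : ℕ → ℝ) (hw : ∀ p ∈ PR y, |w p| ≤ 4 * (p : ℝ) ^ ((1 : ℝ) / 4)) :
    ∑ p ∈ PR y, |w p| ≤ 4 * (y : ℝ) ^ 2 := by
  have h1 : ∀ p ∈ PR y, |w p| ≤ 4 * (y : ℝ) := by
    intro p hp
    refine (hw p hp).trans ?_
    obtain ⟨h1, h2⟩ := mem_PR.mp hp
    have h3 : (1 : ℝ) ≤ p := by exact_mod_cast h2.one_lt.le
    have h4 : (p : ℝ) ^ ((1 : ℝ) / 4) ≤ (p : ℝ) ^ (1 : ℝ) :=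
      Real.rpow_le_rpow_of_exponent_le h3 (by norm_num)
    rw [Real.rpow_one] at h4
    have h5 : (p : ℝ) ≤ y := by exact_mod_cast h1
    linarith
  refine (Finset.sum_le_sum h1).trans ?_
  rw [Finset.sum_const, nsmul_eq_mul]
  have h6 : ((PR y).card : ℝ) ≤ y := by
    have : (PR y).card ≤ (Finset.Icc 1 y).card := by
      apply Finset.card_le_card
      intro p hp
      obtain ⟨h1, h2⟩ := mem_PR.mp hp
      exact Finset.mem_Icc.mpr ⟨h2.one_lt.le, h1⟩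
    rw [Nat.card_Icc] at this
    exact_mod_cast this
  have h7 : (0 : ℝ) ≤ 4 * y := by positivity
  calc ((PR y).card : ℝ) * (4 * y) ≤ y * (4 * y) := by gcongr
    _ = _ := by ring

/-- **Second moment.** -/
theorem EB_ZZ_sq {n d : ℕ} (hn : 1 ≤ n) (hd : 1 ≤ d) (H y : ℕ) (hy : y ^ 4 ≤ H) (w : ℕ → ℝ)
    (hw : ∀ p ∈ PR y, |w p| ≤ 4 * (p : ℝ) ^ ((1 : ℝ) / 4)) :
    EB H (fun c : Mon n d → ℤ => ZZ y w c ^ 2) ≤ KK n d := by
  have hyH : y * y ≤ H := by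
    rcases Nat.eq_zero_or_pos y with h0 | h0
    · simp [h0]
    · calc y * y = y ^ 2 := by ring
        _ ≤ y ^ 4 := Nat.pow_le_pow_right h0 (by norm_num)
        _ ≤ H := hy
  have hpqH : ∀ p ∈ PR y, ∀ q ∈ PR y, p * q ≤ 2 * H + 1 := by
    intro p hp q hq
    have := Nat.mul_le_mul (mem_PR.mp hp).1 (mem_PR.mp hq).1
    omega
  have hpH : ∀ p ∈ PR y, p ≤ 2 * H + 1 := by
    intro p hp
    have h1 := hpqH p hp p hp
    have h2 : p ≤ p * p := Nat.le_mul_self p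
    omega
  have h1 : ∀ c : Mon n d → ℤ, ZZ y w c ^ 2 = ∑ p ∈ PR y, ∑ q ∈ PR y,
      (w p * w q) * (nA p (red p c) * nA q (red q c)) := by
    intro c
    rw [ZZ, sq, Finset.sum_mul_sum]
    refine Finset.sum_congr rfl fun p _ => Finset.sum_congr rfl fun q _ => by ring
  simp only [h1]
  rw [EB_sum]
  simp only [EB_sum, EB_mul]
  set B : ℝ := 2 ^ MM n d * 9 / (2 * H + 1) with hB
  have hB0 : 0 ≤ B := by positivity
  have h2 : ∀ p ∈ PR y, ∀ q ∈ PR y,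
      (w p * w q) * EB H (fun c : Mon n d → ℤ => nA p (red p c) * nA q (red q c)) ≤
      (if q = p then 80 * 2 ^ MM n d * (1 / (p : ℝ) ^ ((3 : ℝ) / 2)) else 0) +
        (4 * (1 / (p : ℝ) ^ ((3 : ℝ) / 2))) * (4 * (1 / (q : ℝ) ^ ((3 : ℝ) / 2))) +
        |w p| * |w q| * B := by
    intro p hp q hq
    have hpp := (mem_PR.mp hp).2
    have hqq := (mem_PR.mp hq).2
    have := Fact.mk hpp
    have := Fact.mk hqq
    have hp0 := p_pos (p := p)
    have hq0 := p_pos (p := q)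
    have hp1 : (1 : ℝ) ≤ p := by exact_mod_cast hpp.one_lt.le
    have hq1 : (1 : ℝ) ≤ q := by exact_mod_cast hqq.one_lt.le
    by_cases hpq : q = p
    · subst hpq
      rw [if_pos rfl]
      have h3 := EB_nA_sq hn hd H q (hpH q hq)
      have h4 : (fun c : Mon n d → ℤ => nA q (red q c) * nA q (red q c)) =
          fun c : Mon n d → ℤ => nA q (red q c) ^ 2 := by funext c; ring
      rw [h4, ← sq, ← sq_abs]
      have h5 : |w q| ^ 2 ≤ 16 * (q : ℝ) ^ ((1 : ℝ) / 2) := by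
        have h6 := hw q hq
        calc |w q| ^ 2 ≤ (4 * (q : ℝ) ^ ((1 : ℝ) / 4)) ^ 2 := by gcongr
          _ = 16 * (q : ℝ) ^ ((1 : ℝ) / 2) := by
              rw [mul_pow, ← Real.rpow_natCast ((q : ℝ) ^ ((1 : ℝ) / 4)) 2, ← Real.rpow_mul hq0.le]
              norm_num
      have h6 : |w q| ^ 2 * EB H (fun c : Mon n d → ℤ => nA q (red q c) ^ 2) ≤
          16 * (q : ℝ) ^ ((1 : ℝ) / 2) * (2 ^ MM n d * (5 / (q : ℝ) ^ 2)) := by
        refine mul_le_mul h5 h3 ?_ (by positivity)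
        unfold EB
        positivity
      have h7 : 16 * (q : ℝ) ^ ((1 : ℝ) / 2) * (2 ^ MM n d * (5 / (q : ℝ) ^ 2)) =
          80 * 2 ^ MM n d * (1 / (q : ℝ) ^ ((3 : ℝ) / 2)) := by
        have h8 : (q : ℝ) ^ 2 = (q : ℝ) ^ ((1 : ℝ) / 2) * (q : ℝ) ^ ((3 : ℝ) / 2) := by
          rw [← Real.rpow_add hq0, ← Real.rpow_natCast]
          norm_num
        rw [h8]
        field_simp
        norm_num
      have h9 : 0 ≤ |w q| * |w q| * B := by positivity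
      have h10 : 0 ≤ (4 * (1 / (q : ℝ) ^ ((3 : ℝ) / 2))) * (4 * (1 / (q : ℝ) ^ ((3 : ℝ) / 2))) := by
        positivity
      linarith
    · rw [if_neg hpq, zero_add]
      have h3 := EB_nA_mul hn hd H p q (fun h => hpq h.symm) (hpqH p hp q hq)
      rw [← hB] at h3
      have h4 : (w p * w q) * EB H (fun c : Mon n d → ℤ => nA p (red p c) * nA q (red q c)) ≤
          (|w p| * |w q|) * (1 / (p : ℝ) ^ 2 * (1 / (q : ℝ) ^ 2) + B) := by
        refine (le_abs_self _).trans ?_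
        rw [abs_mul, abs_mul]
        exact mul_le_mul_of_nonneg_left h3 (by positivity)
      have key : ∀ r : ℕ, r ∈ PR y → |w r| * (1 / (r : ℝ) ^ 2) ≤ 4 * (1 / (r : ℝ) ^ ((3 : ℝ) / 2)) := by
        intro r hr
        have hr1 : (1 : ℝ) ≤ r := by exact_mod_cast (mem_PR.mp hr).2.one_lt.le
        have hr0 : (0 : ℝ) < r := by linarith
        have h6 : (r : ℝ) ^ ((1 : ℝ) / 4) ≤ (r : ℝ) ^ ((1 : ℝ) / 2) :=
          Real.rpow_le_rpow_of_exponent_le hr1 (by norm_num)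
        have h8 : (r : ℝ) ^ 2 = (r : ℝ) ^ ((1 : ℝ) / 2) * (r : ℝ) ^ ((3 : ℝ) / 2) := by
          rw [← Real.rpow_add hr0, ← Real.rpow_natCast]
          norm_num
        have h9 : |w r| ≤ 4 * (r : ℝ) ^ ((1 : ℝ) / 2) := (hw r hr).trans (by linarith)
        calc |w r| * (1 / (r : ℝ) ^ 2) ≤ 4 * (r : ℝ) ^ ((1 : ℝ) / 2) * (1 / (r : ℝ) ^ 2) := by gcongr
          _ = _ := by rw [h8]; field_simp
      have h5 : (|w p| * (1 / (p : ℝ) ^ 2)) * (|w q| * (1 / (q : ℝ) ^ 2)) ≤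
          (4 * (1 / (p : ℝ) ^ ((3 : ℝ) / 2))) * (4 * (1 / (q : ℝ) ^ ((3 : ℝ) / 2))) :=
        mul_le_mul (key p hp) (key q hq) (by positivity) (by positivity)
      calc _ ≤ _ := h4
        _ = (|w p| * (1 / (p : ℝ) ^ 2)) * (|w q| * (1 / (q : ℝ) ^ 2)) + |w p| * |w q| * B := by ring
        _ ≤ _ := by linarith
  refine (Finset.sum_le_sum fun p hp => Finset.sum_le_sum fun q hq => h2 p hp q hq).trans ?_
  simp only [Finset.sum_add_distrib]
  have t1 : ∑ p ∈ PR y, ∑ q ∈ PR y,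
      (if q = p then 80 * 2 ^ MM n d * (1 / (p : ℝ) ^ ((3 : ℝ) / 2)) else 0) ≤
      80 * 2 ^ MM n d * SS := by
    have : ∑ p ∈ PR y, ∑ q ∈ PR y,
        (if q = p then 80 * 2 ^ MM n d * (1 / (p : ℝ) ^ ((3 : ℝ) / 2)) else 0) =
        80 * 2 ^ MM n d * ∑ p ∈ PR y, 1 / (p : ℝ) ^ ((3 : ℝ) / 2) := by
      rw [Finset.mul_sum]
      refine Finset.sum_congr rfl fun p hp => ?_
      rw [Finset.sum_ite_eq' (PR y) p, if_pos hp]
    rw [this]
    exact mul_le_mul_of_nonneg_left (sum_le_SS _) (by positivity)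
  have t2 : ∑ p ∈ PR y, ∑ q ∈ PR y,
      (4 * (1 / (p : ℝ) ^ ((3 : ℝ) / 2))) * (4 * (1 / (q : ℝ) ^ ((3 : ℝ) / 2))) ≤ 16 * SS ^ 2 := by
    rw [← Finset.sum_mul_sum, ← Finset.mul_sum]
    have h3 := sum_le_SS (PR y)
    have h4 : 0 ≤ ∑ p ∈ PR y, 1 / (p : ℝ) ^ ((3 : ℝ) / 2) := Finset.sum_nonneg fun _ _ => by positivity
    have h5 := SS_nonneg
    nlinarith
  have t3 : ∑ p ∈ PR y, ∑ q ∈ PR y, |w p| * |w q| * B ≤ 72 * 2 ^ MM n d := by
    simp only [← Finset.sum_mul]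
    rw [← Finset.sum_mul_sum]
    have h3 := sum_weights y w hw
    have h4 : 0 ≤ ∑ p ∈ PR y, |w p| := Finset.sum_nonneg fun _ _ => abs_nonneg _
    have h5 : (∑ p ∈ PR y, |w p|) * ∑ p ∈ PR y, |w p| ≤ 16 * (H : ℝ) := by
      have h6 : ((y : ℝ)) ^ 4 ≤ H := by exact_mod_cast hy
      calc _ ≤ (4 * (y : ℝ) ^ 2) * (4 * (y : ℝ) ^ 2) := by gcongr
        _ = 16 * (y : ℝ) ^ 4 := by ring
        _ ≤ _ := by linarith
    calc _ ≤ 16 * (H : ℝ) * B := by gcongr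
      _ = 72 * 2 ^ MM n d * (2 * (H : ℝ) / (2 * H + 1)) := by rw [hB]; field_simp; ring
      _ ≤ 72 * 2 ^ MM n d * 1 := by
          gcongr
          rw [div_le_one (by positivity)]
          linarith
      _ = _ := mul_one _
  unfold KK
  linarith

end Pool.Agent.Y722.HS
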